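import Pool.Agent.H846.Det.Trace

/-!
# The unit of an algebra of operators without isotropic elements

Let `C` be a set of operators on a finite-dimensional vector space `V` with a bilinear form, which
is closed under sums, products, rational multiples and adjoints, and has rational traces. If
`T' T ≠ 0` for all nonzero `T` in `C`, then `C` contains a self-adjoint idempotent `e` with
`e T = T = T e` for all `T` in `C`.
-/

open Polynomial

namespace Pool.Agent.H846.Bdeg

open Pool.Agent.H846.Det

variable {K : Type*} [Field K] [CharZero K] {V : Type*} [AddCommGroup V] [Module K V]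

/-- The algebra of operators `C`, without unit, with adjoints for the bilinear form `B`, which is
symmetric or alternating, without isotropic elements. -/
structure GoodAlg (s : K) (B : V → V → K) (C : Module.End K V → Prop) : Prop where
  sq : s * s = 1
  zero : C 0
  add : ∀ S T, C S → C T → C (S + T)
  smul : ∀ (q : ℚ) T, C T → C ((q : K) • T)
  mul : ∀ S T, C S → C T → C (S * T)
  adj : ∀ T, C T → ∃ T', C T' ∧ ∀ x y, B (T x) y = B x (T' y)
  symm : ∀ x y, B x y = s * B y x
  nondeg : ∀ x, (∀ y, B x y = 0) → x = 0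
  badd : ∀ x y z, B (x + y) z = B x z + B y z
  bsmul : ∀ (c : K) x y, B (c • x) y = c * B x y
  aniso : ∀ T T', C T → (∀ x y, B (T x) y = B x (T' y)) → T' * T = 0 → T = 0
  rat : ∀ T, C T → ∃ q : ℚ, LinearMap.trace K V T = q

variable {s : K} {B : V → V → K} {C : Module.End K V → Prop}

/-- The operator `T'` is the adjoint of `T`. -/
def IsAdj (B : V → V → K) (T T' : Module.End K V) : Prop := ∀ x y, B (T x) y = B x (T' y)

namespace GoodAlg

variable (h : GoodAlg s B C)

include h

omit [CharZero K] in
lemma bzero (x : V) : B 0 x = 0 := by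
  have := h.bsmul 0 0 x
  rwa [zero_smul, zero_mul] at this

omit [CharZero K] in
lemma neg {T : Module.End K V} (hT : C T) : C (-T) := by
  have := h.smul (-1) T hT
  push_cast at this
  rwa [neg_one_smul] at this

omit [CharZero K] in
lemma sub {S T : Module.End K V} (hS : C S) (hT : C T) : C (S - T) := by
  rw [sub_eq_add_neg]
  exact h.add _ _ hS (h.neg hT)

omit [CharZero K] in
lemma isAdj_symm {S T : Module.End K V} (hST : IsAdj B S T) : IsAdj B T S := by
  intro x y
  rw [h.symm, ← hST, h.symm, ← mul_assoc, h.sq, one_mul]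

omit [CharZero K] in
lemma isAdj_mul {S S' T T' : Module.End K V} (hS : IsAdj B S S') (hT : IsAdj B T T') :
    IsAdj B (S * T) (T' * S') := by
  intro x y
  rw [Module.End.mul_apply, Module.End.mul_apply, hS, hT]

omit [CharZero K] in
lemma isAdj_add {S S' T T' : Module.End K V} (hS : IsAdj B S S') (hT : IsAdj B T T') :
    IsAdj B (S + T) (S' + T') := by
  intro x y
  rw [LinearMap.add_apply, LinearMap.add_apply, h.badd, hS, hT, h.symm x, h.symm x, h.symm x,
    h.badd, mul_add]

omit [CharZero K] in
lemma isAdj_smul {S S' : Module.End K V} (c : K) (hS : IsAdj B S S') :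
    IsAdj B (c • S) (c • S') := by
  intro x y
  rw [LinearMap.smul_apply, LinearMap.smul_apply, h.bsmul, hS, h.symm x, h.symm x, h.bsmul]
  ring

omit [CharZero K] in
lemma isAdj_unique {S T T' : Module.End K V} (hS : IsAdj B S T) (hS' : IsAdj B S T') :
    T = T' := by
  apply LinearMap.ext
  intro y
  rw [← sub_eq_zero]
  apply h.nondeg
  intro x
  have h1 : ∀ z : V, B (-z) x = -B z x := by
    intro z
    have := h.bsmul (-1) z x
    rwa [neg_one_smul, neg_one_mul] at this
  rw [sub_eq_add_neg, h.badd, h1, h.symm _ x, ← hS, h.symm _ x, ← hS', add_neg_cancel]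

/-- Polynomials without constant term. -/
lemma ev_mem {a : Module.End K V} (ha : C a) (g : ℚ[X]) : C (ev a (X * g)) := by
  induction g using Polynomial.induction_on' with
  | add p q hp hq => rw [mul_add, map_add]; exact h.add _ _ hp hq
  | monomial n c =>
    have h1 : ∀ n : ℕ, C (a ^ (n + 1)) := by
      intro n
      induction n with
      | zero => rwa [zero_add, pow_one]
      | succ n ih => rw [pow_succ]; exact h.mul _ _ ih ha
    rw [← smul_X_eq_monomial, mul_smul_comm, ev_smul, ← pow_succ', map_pow, ev_X]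
    exact h.smul _ _ (h1 n)

lemma ev_adj {a : Module.End K V} (ha : IsAdj B a a) (g : ℚ[X]) :
    IsAdj B (ev a g) (ev a g) := by
  induction g using Polynomial.induction_on' with
  | add p q hp hq => rw [map_add]; exact h.isAdj_add hp hq
  | monomial n c =>
    have h1 : ∀ n : ℕ, IsAdj B (a ^ n) (a ^ n) := by
      intro n
      induction n with
      | zero => intro x y; rfl
      | succ n ih =>
        intro x y
        rw [pow_succ', Module.End.mul_apply, ha, ih, ← Module.End.mul_apply, ← pow_succ,
          pow_succ']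
    rw [← smul_X_eq_monomial, ev_smul, map_pow, ev_X]
    exact h.isAdj_smul _ (h1 n)

omit [CharZero K] in
/-- Self-adjoint nilpotent elements vanish. -/
lemma eq_zero_of_nilpotent {b : Module.End K V} (hb : C b) (hadj : IsAdj B b b)
    (hn : IsNilpotent b) : b = 0 := by
  classical
  by_contra h0
  have hN := Nat.find_spec hn
  set N := Nat.find hn with hNdef
  have hN2 : 2 ≤ N := by
    by_contra h2
    have : N = 0 ∨ N = 1 := by omega
    rcases this with h3 | h3
    · rw [h3, pow_zero] at hN
      apply h0
      rw [← one_mul b, hN, zero_mul]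
    · rw [h3, pow_one] at hN
      exact h0 hN
  have hc : C (b ^ (N - 1)) := by
    have h1 : ∀ n : ℕ, C (b ^ (n + 1)) := by
      intro n
      induction n with
      | zero => rwa [zero_add, pow_one]
      | succ n ih => rw [pow_succ]; exact h.mul _ _ ih hb
    have := h1 (N - 2)
    rwa [show N - 2 + 1 = N - 1 by omega] at this
  have hadj' : IsAdj B (b ^ (N - 1)) (b ^ (N - 1)) := by
    have h1 : ∀ n : ℕ, IsAdj B (b ^ n) (b ^ n) := by
      intro n
      induction n with
      | zero => intro x y; rfl
      | succ n ih =>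
        intro x y
        rw [pow_succ', Module.End.mul_apply, hadj, ih, ← Module.End.mul_apply, ← pow_succ,
          pow_succ']
    exact h1 _
  have h1 : b ^ (N - 1) = 0 := by
    apply h.aniso _ _ hc hadj'
    rw [← pow_add, show N - 1 + (N - 1) = N + (N - 2) by omega, pow_add, hN, zero_mul]
  exact Nat.find_min hn (m := N - 1) (by omega) h1

/-- The idempotent of a self-adjoint element. -/
lemma exists_idem [Module.Finite K V] {a : Module.End K V} (ha : C a) (hadj : IsAdj B a a) :
    ∃ g : ℚ[X], ev a (X * g) * ev a (X * g) = ev a (X * g) ∧ ev a (X * g) * a = a := by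
  have hrat : ∀ m, ∃ q : ℚ, LinearMap.trace K V (a ^ m) = q := by
    intro m
    rcases m with _ | m
    · refine ⟨Module.finrank K V, ?_⟩
      rw [pow_zero, LinearMap.trace_one, Rat.cast_natCast]
    · apply h.rat
      have := h.ev_mem ha (X ^ m)
      rwa [← pow_succ', map_pow, ev_X] at this
  obtain ⟨p, hp0, hp⟩ := exists_annihilator hrat
  obtain ⟨p₁, hp₁, hnd⟩ := Polynomial.exists_eq_pow_rootMultiplicity_mul_and_not_dvd p hp0 0
  set m := rootMultiplicity 0 p
  rw [Polynomial.C_0, sub_zero] at hp₁ hnd
  have hc0 : p₁.coeff 0 ≠ 0 := by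
    intro h0
    exact hnd (X_dvd_iff.2 h0)
  -- `a p₁(a) = 0`
  have hb : ev a (X * p₁) = 0 := by
    apply h.eq_zero_of_nilpotent (h.ev_mem ha p₁) (h.ev_adj hadj _)
    refine ⟨m + 1, ?_⟩
    rw [← map_pow, show (X * p₁) ^ (m + 1) = p * (X * p₁ ^ m) by rw [hp₁]; ring, map_mul, hp,
      zero_mul]
  -- the polynomial
  obtain ⟨g, hg⟩ : ∃ g, 1 - Polynomial.C (p₁.coeff 0)⁻¹ * p₁ = X * g := by
    apply X_dvd_iff.2
    rw [coeff_sub, coeff_one_zero, coeff_C_mul, inv_mul_cancel₀ hc0, sub_self]
  have h1 : ev a (X * g) * a = a := by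
    rw [← hg, map_sub, map_one, sub_mul, one_mul, map_mul]
    have h2 : ev a p₁ * a = 0 := by
      have := hb
      rw [mul_comm, map_mul, ev_X] at this
      exact this
    rw [mul_assoc, h2, mul_zero, sub_zero]
  refine ⟨g, ?_, h1⟩
  conv_lhs => rw [map_mul (ev a) X g, ev_X]
  rw [← mul_assoc]
  conv_rhs => rw [map_mul (ev a) X g, ev_X]
  have h3 : a * ev a g * a = a * a * ev a g := by
    have := ev_comm a g X
    rw [ev_X] at this
    rw [mul_assoc, this, ← mul_assoc]
  rw [h3]
  have h4 : a * ev a g * a = a := by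
    have h5 := h1
    rwa [map_mul, ev_X] at h5
  rw [← h3, h4]

/-- **The unit.** -/
theorem exists_unit [Module.Finite K V] : ∃ e, C e ∧ e * e = e ∧ IsAdj B e e ∧
    ∀ T, C T → T * e = T ∧ e * T = T := by
  classical
  let S : Set ℕ := {r | ∃ e, C e ∧ e * e = e ∧ IsAdj B e e ∧
    Module.finrank K (LinearMap.range e) = r}
  have hS : S.Nonempty := ⟨_, 0, h.zero, by rw [mul_zero], fun x y => by
    rw [LinearMap.zero_apply, LinearMap.zero_apply, h.bzero, h.symm, h.bzero, mul_zero], rfl⟩
  have hbd : BddAbove S := by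
    refine ⟨Module.finrank K V, ?_⟩
    rintro r ⟨e, -, -, -, rfl⟩
    exact Submodule.finrank_le _
  obtain ⟨e, he, hid, hadj, hr⟩ := Nat.sSup_mem hS hbd
  have htr : ∀ e : Module.End K V, e * e = e →
      LinearMap.trace K V e = (Module.finrank K (LinearMap.range e) : K) := by
    intro e he
    exact (LinearMap.IsIdempotentElem.isProj_range e he).trace
  have key : ∀ T, C T → T * e = T := by
    intro T hT
    by_contra hne
    obtain ⟨T', hT', hTT'⟩ := h.adj T hT
    set T₁ := T - T * e with hT₁
    set T₁' := T' - e * T' with hT₁'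
    have hC₁ : C T₁ := h.sub hT (h.mul _ _ hT he)
    have hC₁' : C T₁' := h.sub hT' (h.mul _ _ he hT')
    have hadj₁ : IsAdj B T₁ T₁' := by
      have h1 := h.isAdj_smul (-1) (h.isAdj_mul hTT' hadj)
      have h2 := h.isAdj_add hTT' h1
      rw [neg_one_smul, neg_one_smul, ← sub_eq_add_neg, ← sub_eq_add_neg] at h2
      exact h2
    have hT₁0 : T₁ ≠ 0 := by
      intro h0
      apply hne
      rw [hT₁, sub_eq_zero] at h0
      exact h0.symm
    set a := T₁' * T₁ with ha
    have haC : C a := h.mul _ _ hC₁' hC₁
    have ha0 : a ≠ 0 := fun h0 => hT₁0 (h.aniso _ _ hC₁ hadj₁ h0)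
    have haadj : IsAdj B a a := h.isAdj_mul (h.isAdj_symm hadj₁) hadj₁
    have hT₁e : T₁ * e = 0 := by
      rw [hT₁, sub_mul, mul_assoc, hid, sub_self]
    have heT₁ : e * T₁' = 0 := by
      rw [hT₁', mul_sub, ← mul_assoc, hid, sub_self]
    have hae : a * e = 0 := by
      rw [ha, mul_assoc, hT₁e, mul_zero]
    have hea : e * a = 0 := by
      rw [ha, ← mul_assoc, heT₁, zero_mul]
    obtain ⟨g, hg1, hg2⟩ := h.exists_idem haC haadj
    set f := ev a (X * g) with hf
    have hfC : C f := h.ev_mem haC g
    have hfadj : IsAdj B f f := h.ev_adj haadj _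
    have hf0 : f ≠ 0 := by
      intro h0
      rw [h0, zero_mul] at hg2
      exact ha0 hg2.symm
    have hef : e * f = 0 := by
      rw [hf, map_mul, ev_X, ← mul_assoc, hea, zero_mul]
    have hfe : f * e = 0 := by
      rw [hf, mul_comm, map_mul, ev_X, mul_assoc, hae, mul_zero]
    have hid2 : (e + f) * (e + f) = e + f := by
      rw [add_mul, mul_add, mul_add, hid, hef, hfe, hg1, add_zero, zero_add]
    have hmem : Module.finrank K (LinearMap.range (e + f)) ∈ S :=
      ⟨e + f, h.add _ _ he hfC, hid2, h.isAdj_add hadj hfadj, rfl⟩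
    have hle := le_csSup hbd hmem
    rw [← hr] at hle
    have h1 := htr (e + f) hid2
    rw [map_add, htr e hid, htr f hg1] at h1
    have h2 : Module.finrank K (LinearMap.range e) + Module.finrank K (LinearMap.range f) =
        Module.finrank K (LinearMap.range (e + f)) := by exact_mod_cast h1
    have h3 : 0 < Module.finrank K (LinearMap.range f) := by
      rw [Module.finrank_pos_iff_exists_ne_zero]
      by_contra h4
      push Not at h4
      apply hf0
      apply LinearMap.ext
      intro x
      exact congrArg Subtype.val (h4 ⟨f x, x, rfl⟩)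
    omega
  refine ⟨e, he, hid, hadj, fun T hT => ⟨key T hT, ?_⟩⟩
  obtain ⟨T', hT', hTT'⟩ := h.adj T hT
  have h1 : IsAdj B (T' * e) (e * T) := h.isAdj_mul (h.isAdj_symm hTT') hadj
  rw [key T' hT'] at h1
  exact h.isAdj_unique h1 (h.isAdj_symm hTT')

end GoodAlg

end Pool.Agent.H846.Bdeg
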