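import Pool.Agent.H846.Bdeg.Star
import Pool.Agent.H846.Bdeg.Alg

/-!
# The inverse of the Lefschetz operator in one degree
-/

open CategoryTheory AlgebraicGeometry Finset

universe u v

namespace Pool.Agent.H846.Bdeg

open Pool.Agent.H914 Pool.Agent.H914.VarClass Pool.Agent.H914.VarClass.Obj
  Pool.Agent.H914.WeilCohomology Pool.Agent.H281R3.HT Pool.Agent.W552 Pool.Agent.W539.Ker
  Pool.Agent.R911.Iso Pool.Agent.H447 Pool.Agent.H846.Det Pool.Agent.H846.Plc
  Pool.Agent.H846.Hdt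

variable {k : Type u} [Field k] {𝒱 : VarClass k} {ops : CycleOps 𝒱}
  {W : WeilCohomology.{u, v} ops}

/-- A variety for which the star operator in degree `i` is algebraic. -/
structure SD (W : WeilCohomology.{u, v} ops) (X : 𝒱.Obj) (D : X.Cycles)
    (f : Module.End W.K (W.H X)) (i : ℕ) : Prop where
  hD : X.IsCyc 1 D
  ls : LefStr (W.isInternal X) X.dim (LinearMap.mulLeft W.K (W.cl X D)) f
  le : i ≤ X.dim
  star : ∃ S : Module.End W.K (W.H X), HO W X X (2 * X.dim - 2 * i) S ∧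
    ∀ x ∈ W.gr X i, S x = st W X D f x

section One

variable {X : 𝒱.Obj} {D : X.Cycles} {f : Module.End W.K (W.H X)} {i : ℕ}
  (h : SD W X D f i)

include h

lemma SD.st_st (x : W.H X) : st W X D f (st W X D f x) = x := by
  have h1 : st W X D f * st W X D f = 1 := h.ls.star_star
  rw [← Module.End.mul_apply, h1, Module.End.one_apply]

lemma SD.st_mem {x : W.H X} (hx : x ∈ W.gr X i) : st W X D f x ∈ W.gr X (2 * X.dim - i) :=
  h.ls.star_mem (by have := h.le; omega) hx

lemma SD.st_mem' {x : W.H X} (hx : x ∈ W.gr X (2 * X.dim - i)) : st W X D f x ∈ W.gr X i := by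
  have := h.ls.star_mem (i := 2 * X.dim - i) (by omega) hx
  have hle := h.le
  rwa [show 2 * X.dim - (2 * X.dim - i) = i by omega] at this

lemma SD.symm {x y : W.H X} (hx : x ∈ W.gr X i) (hy : y ∈ W.gr X i) :
    bf W X D f x y = (-1 : W.K) ^ i * bf W X D f y x := by
  exact h.ls.form_symm (B := bil W X) (fun p q => RSys.bil_self h.hD p q)
    (fun i j a ha b hb hij => W.tr_eq_zero (W.mul_mem ha hb) hij)
    (fun i j a ha b hb => by
      rw [bil_apply, bil_apply, W.comm ha hb, map_smul, smul_eq_mul]) hy hx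

omit h in
lemma neg_sq (i : ℕ) : ((-1 : W.K) ^ i) * (-1) ^ i = 1 := by
  rw [← mul_pow]; simp

/-- The star operator and the trace form. -/
lemma SD.tr_st {x z : W.H X} (hx : x ∈ W.gr X i) (hz : z ∈ W.gr X i) :
    W.tr X (st W X D f x * z) = bf W X D f x z := by
  rw [h.symm hx hz, bf_apply, W.comm (h.st_mem hx) hz, map_smul, smul_eq_mul]
  congr 1
  have hle := h.le
  rcases Nat.even_or_odd i with h1 | h1
  · rw [(h1.mul_left _).neg_one_pow, h1.neg_one_pow]
  · have h3 : Odd (2 * X.dim - i) := Nat.Even.sub_odd (by omega) (even_two_mul _) h1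
    rw [(h3.mul h1).neg_one_pow, h1.neg_one_pow]

end One

/-- The adjoint. -/
lemma SD.adj {X Y : 𝒱.Obj} {D : X.Cycles} {f : Module.End W.K (W.H X)} {E : Y.Cycles}
    {g : Module.End W.K (W.H Y)} {i : ℕ} (h : SD W X D f i) (h' : SD W Y E g i)
    {u : W.H X →ₗ[W.K] W.H Y} {u' : W.H Y →ₗ[W.K] W.H X}
    (hu' : HO W Y X (2 * i - X.dim - Y.dim) u')
    (hadj : ∀ a b, W.tr Y (u a * b) = W.tr X (a * u' b)) {x : W.H X} (hx : x ∈ W.gr X i)
    {y : W.H Y} (hy : y ∈ W.gr Y i) :
    bf W Y E g (u (st W X D f x)) y = bf W X D f x (u' (st W Y E g y)) := by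
  rw [bf_apply, hadj, h.tr_st hx]
  apply hu'.mem (h'.st_mem hy)
  have := h'.le
  rw [Nat.cast_sub (by omega)]
  push_cast
  ring

section Square

variable {X : 𝒱.Obj} {D : X.Cycles} {f : Module.End W.K (W.H X)} {i : ℕ}

/-- The operators on the cohomology in degree `i` given by cycles of codimension `i`. -/
def Ci (W : WeilCohomology.{u, v} ops) (X : 𝒱.Obj) (D : X.Cycles)
    (f : Module.End W.K (W.H X)) (i : ℕ) (T : Module.End W.K (W.gr X i)) : Prop :=
  ∃ u, HO W X X (2 * i - X.dim - X.dim) u ∧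
    ∀ x : W.gr X i, (T x : W.H X) = u (st W X D f x)

/-- The form on the cohomology in degree `i`. -/
noncomputable def Bi (W : WeilCohomology.{u, v} ops) (X : 𝒱.Obj) (D : X.Cycles)
    (f : Module.End W.K (W.H X)) (i : ℕ) (x y : W.gr X i) : W.K := bf W X D f x y

lemma exists_opi (h : SD W X D f i) {u : Module.End W.K (W.H X)}
    (hu : HO W X X (2 * i - X.dim - X.dim) u) : ∃ T : Module.End W.K (W.gr X i),
      ∀ x : W.gr X i, (T x : W.H X) = u (st W X D f x) := by
  refine ⟨((u ∘ₗ st W X D f) ∘ₗ (W.gr X i).subtype).codRestrict _ (fun x => ?_), fun _ => rfl⟩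
  apply hu.mem (h.st_mem x.2)
  have := h.le
  rw [Nat.cast_sub (by omega)]
  push_cast
  ring

/-- The traces of the operators on the cohomology in degree `i` are rational. -/
def RatTr (W : WeilCohomology.{u, v} ops) (X : 𝒱.Obj) (D : X.Cycles)
    (f : Module.End W.K (W.H X)) (i : ℕ) : Prop :=
  ∀ T, Ci W X D f i T → ∃ q : ℚ, LinearMap.trace W.K (W.gr X i) T = q

/-- **The algebra of operators has no isotropic elements.** -/
theorem goodAlg (h : SD W X D f i) (hrat : RatTr W X D f i)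
    (han : ∀ u : Module.End W.K (W.H X), HO W X X (2 * i - X.dim - X.dim) u →
      (∃ y ∈ W.gr X (2 * X.dim - i), u y ≠ 0) →
      ∃ y ∈ W.gr X (2 * X.dim - i), ∃ y' ∈ W.gr X (2 * X.dim - i),
        bf W X D f (u y) (u y') ≠ 0) :
    GoodAlg ((-1 : W.K) ^ i) (Bi W X D f i) (Ci W X D f i) where
  sq := neg_sq i
  zero := ⟨0, HO.zero, fun _ => rfl⟩
  add := by
    rintro S T ⟨u, hu, hS⟩ ⟨u', hu', hT⟩
    refine ⟨u + u', hu.add hu', fun x => ?_⟩
    rw [LinearMap.add_apply, Submodule.coe_add, hS, hT, LinearMap.add_apply]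
  smul := by
    rintro q T ⟨u, hu, hT⟩
    refine ⟨(q : W.K) • u, hu.smul q, fun x => ?_⟩
    rw [LinearMap.smul_apply, Submodule.coe_smul, hT, LinearMap.smul_apply]
  mul := by
    rintro S T ⟨u, hu, hS⟩ ⟨u', hu', hT⟩
    obtain ⟨s, hs, hs'⟩ := h.star
    refine ⟨u ∘ₗ s ∘ₗ u', (hu.comp (hs.comp hu')).cast (by ring), fun x => ?_⟩
    rw [Module.End.mul_apply, hS, LinearMap.comp_apply, LinearMap.comp_apply, ← hT, hs' _ (T x).2]
  adj := by
    rintro T ⟨u, hu, hT⟩
    obtain ⟨u', hu', hadj⟩ := hu.adj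
    obtain ⟨T', hT'⟩ := exists_opi h hu'
    refine ⟨T', ⟨u', hu', hT'⟩, fun x y => ?_⟩
    rw [Bi, Bi, hT, hT']
    exact h.adj h hu' hadj x.2 y.2
  symm x y := h.symm x.2 y.2
  nondeg := by
    intro x hx
    apply Subtype.ext
    have h2 : st W X D f x = 0 := by
      have hle := h.le
      apply HKn.eq_zero_of_tr (h.st_mem x.2) (j := i) (by omega)
      intro y hy
      have h3 := h.symm hy x.2
      rw [bf_apply] at h3
      rw [h3]
      have h4 : bf W X D f x y = 0 := hx ⟨y, hy⟩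
      rw [h4, mul_zero]
    have h3 := h.st_st x
    rw [h2, map_zero] at h3
    exact h3.symm
  badd x y z := by
    change bf W X D f ((x : W.H X) + y) z = bf W X D f x z + bf W X D f y z
    rw [map_add, LinearMap.add_apply]
  bsmul c x y := by
    change bf W X D f (c • (x : W.H X)) y = c * bf W X D f x y
    rw [map_smul, LinearMap.smul_apply, smul_eq_mul]
  aniso := by
    rintro T T' ⟨u, hu, hTu⟩ hadj h0
    by_contra hne
    have h2 : ∃ y ∈ W.gr X (2 * X.dim - i), u y ≠ 0 := by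
      by_contra h3
      push Not at h3
      apply hne
      apply LinearMap.ext
      intro x
      apply Subtype.ext
      rw [hTu, h3 _ (h.st_mem x.2)]
      rfl
    obtain ⟨y, hy, y', hy', h3⟩ := han u hu h2
    apply h3
    have h4 := hadj ⟨_, h.st_mem' hy⟩ (T ⟨_, h.st_mem' hy'⟩)
    rw [← Module.End.mul_apply, h0, LinearMap.zero_apply] at h4
    have h5 : ∀ x : W.gr X i, Bi W X D f i x 0 = 0 := by
      intro x
      change bf W X D f x ((0 : W.gr X i) : W.H X) = 0
      rw [Submodule.coe_zero, map_zero]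
    rw [h5, Bi, hTu, hTu] at h4
    simp only [h.st_st] at h4
    exact h4
  rat := hrat

end Square

/-- Each algebraic operator from `X` to `Y` which does not vanish on the cohomology in degree
`2n - i` has a nonisotropic image. -/
def NonIso (W : WeilCohomology.{u, v} ops) (X Y : 𝒱.Obj) (E : Y.Cycles)
    (g : Module.End W.K (W.H Y)) (i : ℕ) : Prop :=
  ∀ u : W.H X →ₗ[W.K] W.H Y, HO W X Y (2 * i - X.dim - Y.dim) u →
    (∃ y ∈ W.gr X (2 * X.dim - i), u y ≠ 0) →
    ∃ y ∈ W.gr X (2 * X.dim - i), ∃ y' ∈ W.gr X (2 * X.dim - i),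
      bf W Y E g (u y) (u y') ≠ 0

/-- **The unit for the correspondences of codimension `i`.** -/
theorem exists_unit {X : 𝒱.Obj} {D : X.Cycles} {f : Module.End W.K (W.H X)} {i : ℕ}
    (h : SD W X D f i) (hrat : RatTr W X D f i) (han : NonIso W X X D f i) :
    ∃ e : Module.End W.K (W.H X), HO W X X (2 * i - X.dim - X.dim) e ∧
      (∀ x ∈ W.gr X i, e (st W X D f (e (st W X D f x))) = e (st W X D f x)) ∧
      ∀ (Y : 𝒱.Obj) (E : Y.Cycles) (g : Module.End W.K (W.H Y)), SD W Y E g i →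
        NonIso W X Y E g i → ∀ u : W.H X →ₗ[W.K] W.H Y, HO W X Y (2 * i - X.dim - Y.dim) u →
          ∀ x ∈ W.gr X i, u (st W X D f (e (st W X D f x))) = u (st W X D f x) := by
  have G := goodAlg h hrat han
  obtain ⟨e, ⟨ue, hue, he⟩, hid, -, hunit⟩ := G.exists_unit
  have hidx : ∀ x ∈ W.gr X i, ue (st W X D f (ue (st W X D f x))) = ue (st W X D f x) := by
    intro x hx
    have h2 := congrArg (fun T : Module.End W.K (W.gr X i) => (T ⟨x, hx⟩ : W.H X)) hid
    simp only [Module.End.mul_apply] at h2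
    rw [he, he] at h2
    exact h2
  refine ⟨ue, hue, hidx, fun Y E g hY hnon u hu x hx => ?_⟩
  obtain ⟨s, hs, hs'⟩ := h.star
  have hle := h.le
  have hmem : ∀ y ∈ W.gr X (2 * X.dim - i), ue y ∈ W.gr X i := by
    intro y hy
    apply hue.mem hy
    rw [Nat.cast_sub (by omega)]
    push_cast
    ring
  set u₁ := u - u ∘ₗ s ∘ₗ ue with hu₁
  have h₁ : HO W X Y (2 * i - X.dim - Y.dim) u₁ :=
    hu.sub ((hu.comp (hs.comp hue)).cast (by ring))
  have hu₁v : ∀ y ∈ W.gr X (2 * X.dim - i), u₁ y = u y - u (st W X D f (ue y)) := by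
    intro y hy
    rw [hu₁, LinearMap.sub_apply, LinearMap.comp_apply, LinearMap.comp_apply,
      hs' _ (hmem y hy)]
  by_contra hne
  have hact : ∃ y ∈ W.gr X (2 * X.dim - i), u₁ y ≠ 0 := by
    refine ⟨_, h.st_mem hx, fun h0 => hne ?_⟩
    rw [hu₁v _ (h.st_mem hx), sub_eq_zero] at h0
    exact h0.symm
  obtain ⟨a, ha, a', ha', h3⟩ := hnon u₁ h₁ hact
  obtain ⟨w, hw, hadj⟩ := h₁.adj
  obtain ⟨s', hs1, hs1'⟩ := hY.star
  have hw₁ : HO W X X (2 * i - X.dim - X.dim) (w ∘ₗ s' ∘ₗ u₁) :=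
    (hw.comp (hs1.comp h₁)).cast (by ring)
  obtain ⟨T, hT'⟩ := exists_opi h hw₁
  have hTe := (hunit T ⟨_, hw₁, hT'⟩).1
  have hu₁m : ∀ y ∈ W.gr X (2 * X.dim - i), u₁ y ∈ W.gr Y i := by
    intro y hy
    apply h₁.mem hy
    rw [Nat.cast_sub (by omega)]
    push_cast
    ring
  apply h3
  rw [← h.st_st a, h.adj hY (hw.cast (by ring)) hadj (h.st_mem' ha) (hu₁m _ ha')]
  have h4 : w (st W Y E g (u₁ a')) = 0 := by
    have h5 : (T ⟨_, h.st_mem' ha'⟩ : W.H X) = w (st W Y E g (u₁ a')) := by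
      rw [hT', LinearMap.comp_apply, LinearMap.comp_apply]
      simp only [h.st_st]
      rw [hs1' _ (hu₁m _ ha')]
    rw [← h5, ← hTe, Module.End.mul_apply, hT', he]
    have h6 : u₁ (st W X D f (ue (st W X D f (st W X D f a')))) = 0 := by
      rw [hu₁v _ (h.st_mem (hmem _ (h.st_mem (h.st_mem' ha')))), hidx _ (h.st_mem' ha'), sub_self]
    simp only [LinearMap.comp_apply]
    rw [h6, map_zero, map_zero]
  rw [h4, map_zero]

/-- **The inverse of the Lefschetz operator in degree `i`.** -/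
theorem invIn_of_nonzero {X : 𝒱.Obj} {D : X.Cycles} {f : Module.End W.K (W.H X)} {i : ℕ}
    (hD : X.IsCyc 1 D) (t : LefStr (W.isInternal X) X.dim (LinearMap.mulLeft W.K (W.cl X D)) f)
    (hi : i ≤ X.dim) (hinv : ∀ j, j + 2 ≤ i → InvIn W X D j)
    (hrat : RatTr W X D f i) (han : NonIso W X X D f i)
    (hne : ∀ y ∈ W.gr X (2 * X.dim - i), y ≠ 0 → ∃ (Y : 𝒱.Obj) (E : Y.Cycles)
      (g : Module.End W.K (W.H Y)), SD W Y E g i ∧ NonIso W X Y E g i ∧
      ∃ u, HO W X Y (2 * i - X.dim - Y.dim) u ∧ u y ≠ 0) : InvIn W X D i := by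
  obtain ⟨η, η', hη, hη', h1, h2, h3⟩ := exists_star hD t hi hinv
  have hcast : ((X.dim - i : ℕ) : ℤ) = X.dim - i := by rw [Nat.cast_sub hi]
  have h : SD W X D f i := by
    refine ⟨hD, t, hi, Lc W X D (X.dim - i) * η, ?_, fun x hx => (h3 x hx).symm⟩
    exact ((Lc_ho hD _).mul hη).cast (by rw [hcast]; ring)
  obtain ⟨e, he, hid, hun⟩ := exists_unit h hrat han
  have hmem : ∀ y ∈ W.gr X (2 * X.dim - i), e y ∈ W.gr X i := by
    intro y hy
    apply he.mem hy
    rw [Nat.cast_sub (by omega)]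
    push_cast
    ring
  have key : ∀ x ∈ W.gr X i, e (st W X D f x) = x := by
    intro x hx
    by_contra hne'
    set x₁ := x - e (st W X D f x) with hx₁
    have hx₁m : x₁ ∈ W.gr X i := Submodule.sub_mem _ hx (hmem _ (h.st_mem hx))
    have hx₁0 : x₁ ≠ 0 := fun h3 => hne' (sub_eq_zero.1 h3).symm
    have h0 : e (st W X D f x₁) = 0 := by
      rw [hx₁, map_sub, map_sub, hid x hx, sub_self]
    obtain ⟨Y, E, g, hY, hnon, u, hu, huy⟩ := hne (st W X D f x₁) (h.st_mem hx₁m) (fun h4 => by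
      apply hx₁0
      have h5 := h.st_st x₁
      rw [h4, map_zero] at h5
      exact h5.symm)
    apply huy
    rw [← hun Y E g hY hnon u hu x₁ hx₁m, h0, map_zero, map_zero]
  refine ⟨η * e, (hη.mul he).cast (by rw [hcast]; ring), fun x hx => ?_⟩
  have hη'm : η' x ∈ W.gr X i := by
    apply hη'.mem hx
    ring
  have h4 := key _ hη'm
  rw [h3 _ hη'm, h2 x hx] at h4
  rw [Module.End.mul_apply, h4, h2 x hx]

end Pool.Agent.H846.Bdeg
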