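import Pool.Agent.H846.Deg2.Defs

/-!
# Correspondences with nonisotropic images in all degrees: definitions
-/

open CategoryTheory AlgebraicGeometry

universe u v

namespace Pool.Agent.H846.Bdeg

open Pool.Agent.H914 Pool.Agent.H914.VarClass Pool.Agent.H914.VarClass.Obj
  Pool.Agent.H281R3.HT Pool.Agent.H846.Det Pool.Agent.H846.Plc Pool.Agent.H846.Hdt
  Pool.Agent.H846.Deg2

section Alg

variable {K A : Type*} [Field K] [Ring A] [Algebra K A]

/-- The element `a` is in `gr j`, and `ξ ^ (n - j + 1) a = 0`. -/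
def IsPrimitiveIn (gr : ℕ → Submodule K A) (ξ : A) (n j : ℕ) (a : A) : Prop :=
  a ∈ gr j ∧ ξ ^ (n - j + 1) * a = 0

/-- The sum of the `ξ ^ j a_j` with `2 j ≤ i`. -/
def lefSum (ξ : A) (i : ℕ) (a : ℕ → A) : A := ∑ j ∈ Finset.range (i / 2 + 1), ξ ^ j * a j

/-- The sum of the `(-1) ^ j (j! / (n - i + j)!) tr(a_j a'_j ξ ^ (n - i + 2 j))` with `2 j ≤ i`. -/
def hodgeSum (tr : A →ₗ[K] K) (ξ : A) (n i : ℕ) (a a' : ℕ → A) : K :=
  ∑ j ∈ Finset.range (i / 2 + 1), (-1) ^ j * (j.factorial * ((n - i + j).factorial : K)⁻¹) *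
    tr (a j * a' j * ξ ^ (n - i + 2 * j))

/-- The value of the Hodge-Riemann form in degree `i` on `x` and `x'` is `c`: if `x = ∑ ξ ^ j a_j`
and `x' = ∑ ξ ^ j a'_j` are the Lefschetz decompositions, with `a_j` and `a'_j` primitive of degree
`i - 2 j`, then `c` is the sum of the `(-1) ^ j (j! / (n - i + j)!) tr(a_j a'_j ξ ^ (n - i + 2 j))`. -/
def HodgeValue (gr : ℕ → Submodule K A) (tr : A →ₗ[K] K) (ξ : A) (n i : ℕ) (x x' : A) (c : K) :
    Prop :=
  ∃ a a' : ℕ → A, (∀ j, 2 * j ≤ i → IsPrimitiveIn gr ξ n (i - 2 * j) (a j)) ∧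
    (∀ j, 2 * j ≤ i → IsPrimitiveIn gr ξ n (i - 2 * j) (a' j)) ∧
    x = lefSum ξ i a ∧ x' = lefSum ξ i a' ∧ c = hodgeSum tr ξ n i a a'

end Alg

variable {k : Type u} [Field k] {𝒱 : VarClass k} {ops : CycleOps 𝒱}

/-- The value of the Hodge-Riemann form on `x` and `x'` in `H^i(Y)` is `c`. In characteristic zero
this form is, up to a scalar, a polarization of the Hodge structure `H^i(Y)`, for `E` ample. -/
def HodgeValueOn (W : WeilCohomology.{u, v} ops) (Q : Polarized 𝒱) (i : ℕ) (x x' : W.H Q.X)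
    (c : W.K) : Prop := HodgeValue (W.gr Q.X) (W.tr Q.X) (classOf W Q.X Q.D) Q.X.dim i x x' c

/-- The cycle `z` of codimension `i` on `X × Y` acts nontrivially from `H^(2n - i)(X)` to
`H^i(Y)`, where `n = dim X`. -/
def ActsNontriviallyIn (W : WeilCohomology.{u, v} ops) (P Q : Polarized 𝒱) (i : ℕ)
    (z : (P.X.prod Q.X).Cycles) : Prop :=
  ∃ y, InDegree W P.X (2 * P.X.dim - i) y ∧ corrMap W z y ≠ 0

/-- The image of `H^(2n - i)(X)` in `H^i(Y)` under the cycle `z` of codimension `i` on `X × Y` is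
not totally isotropic for the Hodge-Riemann form of `H^i(Y)`. In characteristic zero this is so for
all cycles which act nontrivially, by the Hodge-Riemann relations. -/
def HasNonisotropicImageIn (W : WeilCohomology.{u, v} ops) (P Q : Polarized 𝒱) (i : ℕ)
    (z : (P.X.prod Q.X).Cycles) : Prop :=
  ∃ y y' c, InDegree W P.X (2 * P.X.dim - i) y ∧ InDegree W P.X (2 * P.X.dim - i) y' ∧
    HodgeValueOn W Q i (corrMap W z y) (corrMap W z y') c ∧ c ≠ 0

variable {k₀ : Type u} [Field k₀] {𝒱₀ : VarClass k₀} {ops₀ : CycleOps 𝒱₀}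

/-- The cycle `z₀` on `X₀ × Y₀` acts on `H^(2n - i)(X₀)` as the cycle `z` on `X × Y` acts on
`H^(2n - i)(X)`, where `n = dim X`. -/
def ActsAsIn {W : WeilCohomology.{u, v} ops} {W₀ : WeilCohomology.{u, v} ops₀}
    {P Q : Polarized 𝒱} {P₀ Q₀ : Polarized 𝒱₀} (S : Place W W₀ P Q P₀ Q₀) (i : ℕ)
    (z : (P.X.prod Q.X).Cycles) (z₀ : (P₀.X.prod Q₀.X).Cycles) : Prop :=
  ∀ y, InDegree W P.X (2 * P.X.dim - i) y →
    isoMap S.t (corrMap W z y) = corrMap W₀ z₀ (isoMap S.s y)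

/-- The cycle `z` of codimension `i` on `X × Y` is detected by a cycle `c` of codimension `p` on
`Z × X₀` at the place `(X₀, Y₀)`: there is a cycle `z₀` of codimension `i` on `X₀ × Y₀` which acts
on `H^(2n - i)(X₀)` as `z` acts on `H^(2n - i)(X)`; the composition `z₀ ∘ c` (of codimension `r` on
`Z × Y₀`) does not vanish on the classes `b` on `Z` such that `c(b)` is in `H^(2n - i)(X₀)`; and
the standard conjecture of Hodge type holds for `Z × Y₀` in the codimensions at most `r`. -/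
def IsDetectedAtIn {W : WeilCohomology.{u, v} ops} {W₀ : WeilCohomology.{u, v} ops₀}
    {P Q : Polarized 𝒱} {P₀ Q₀ : Polarized 𝒱₀} (S : Place W W₀ P Q P₀ Q₀) (Z : Polarized 𝒱₀)
    (i : ℕ) (z : (P.X.prod Q.X).Cycles) : Prop :=
  ∃ (z₀ : (P₀.X.prod Q₀.X).Cycles) (p r : ℕ) (c : (Z.X.prod P₀.X).Cycles),
    (P₀.X.prod Q₀.X).IsCyc i z₀ ∧ ActsAsIn S i z z₀ ∧ (Z.X.prod P₀.X).IsCyc p c ∧
    p + i = r + P₀.X.dim ∧ HomHodgeUpTo W₀ (Z.prod ops₀ Q₀) r ∧
    ∃ b, InDegree W₀ P₀.X (2 * P.X.dim - i) (corrMap W₀ c b) ∧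
      corrMap W₀ z₀ (corrMap W₀ c b) ≠ 0

/-- The cycle `z` of codimension `i` on `X × Y` is detected by a cycle on `Z × X₀` at some place
`(X₀, Y₀)`, where `Z` and `Y₀` satisfy the conjecture B. -/
def IsDetectedIn (W : WeilCohomology.{u, v} ops) (P Q : Polarized 𝒱) (i : ℕ)
    (z : (P.X.prod Q.X).Cycles) : Prop :=
  ∃ (k₀ : Type u) (_ : Field k₀) (𝒱₀ : VarClass k₀) (ops₀ : CycleOps 𝒱₀)
    (W₀ : WeilCohomology.{u, v} ops₀) (P₀ Q₀ Z : Polarized 𝒱₀) (S : Place W W₀ P Q P₀ Q₀),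
    IsLefschetz W₀ Q₀ ∧ IsLefschetz W₀ Z ∧ IsDetectedAtIn S Z i z

/-- The cycle `z` of codimension `i` on `X × Y` is detected: it has a nonisotropic image, or it is
detected at a place, or `i = 2` and it is detected by a curve at a place (for which only the Hodge
index theorem is needed). -/
def IsDetectedSomehow (W : WeilCohomology.{u, v} ops) (P Q : Polarized 𝒱) (i : ℕ)
    (z : (P.X.prod Q.X).Cycles) : Prop :=
  HasNonisotropicImageIn W P Q i z ∨ IsDetectedIn W P Q i z ∨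
    (i = 2 ∧ IsDetectedByCurve W P Q z)

/-- The polarized variety `Q = (Y, E)` satisfies the hard Lefschetz theorem, `i ≤ dim Y`, and the
Lefschetz standard conjecture holds for `Y` in the degrees at most `i - 2`: cycles induce the
inverses of `E ^ (d - j) : H^j(Y) → H^(2d - j)(Y)` for `j + 2 ≤ i`, where `d = dim Y`. -/
structure IsTestVariety (W : WeilCohomology.{u, v} ops) (i : ℕ) (Q : Polarized 𝒱) : Prop where
  isCyc : Q.X.IsCyc 1 Q.D
  hard : HardLefschetz W Q.X Q.D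
  le : i ≤ Q.X.dim
  low : ∀ j, j + 2 ≤ i → ∃ z, Pool.Agent.W537.InvertsLefschetz W Q.X Q.D j z

/-- The members `Q = (Y, E)` of `𝒴` are test varieties, and each cycle of codimension `i` on
`X × Y`, where `Y = X` or `Y` is in `𝒴`, which acts nontrivially from `H^(2n - i)(X)` to `H^i(Y)`,
is detected. -/
structure IsTestClassIn (W : WeilCohomology.{u, v} ops) (P : Polarized 𝒱) (i : ℕ)
    (𝒴 : Polarized 𝒱 → Prop) : Prop where
  test : ∀ Q, 𝒴 Q → IsTestVariety W i Q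
  detected : ∀ Q, Q = P ∨ 𝒴 Q → ∀ z : (P.X.prod Q.X).Cycles, (P.X.prod Q.X).IsCyc i z →
    ActsNontriviallyIn W P Q i z → IsDetectedSomehow W P Q i z

/-- A cycle induces the inverse of `D ^ (n - i) : H^i(X) → H^(2n - i)(X)`, or the correspondences
of codimension `i` from `X` to itself and to the members of `𝒴` are detected. -/
def IsKnownOrDetected (W : WeilCohomology.{u, v} ops) (P : Polarized 𝒱) (i : ℕ)
    (𝒴 : Polarized 𝒱 → Prop) : Prop :=
  (∃ z, Pool.Agent.W537.InvertsLefschetz W P.X P.D i z) ∨ IsTestClassIn W P i 𝒴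

/-- For every single nonzero class `y` in `H^(2n - i)(X)`, `n = dim X`, there are `Y`, either `X`
or in `𝒴`, and a cycle `z` of codimension `i` on `X × Y` such that `z(y)` is not zero. -/
def NonzeroAtEachClassIn (W : WeilCohomology.{u, v} ops) (P : Polarized 𝒱) (i : ℕ)
    (𝒴 : Polarized 𝒱 → Prop) : Prop :=
  ∀ y, InDegree W P.X (2 * P.X.dim - i) y → y ≠ 0 → ∃ Q, (Q = P ∨ 𝒴 Q) ∧
    ∃ z : (P.X.prod Q.X).Cycles, (P.X.prod Q.X).IsCyc i z ∧ corrMap W z y ≠ 0

end Pool.Agent.H846.Bdeg
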