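import Pool.Agent.H846.Bdeg.Form
import Pool.Agent.H846.Deg2.Place

/-!
# Detected correspondences have nonisotropic images
-/

open CategoryTheory AlgebraicGeometry Finset

universe u v

namespace Pool.Agent.H846.Bdeg

open Pool.Agent.H914 Pool.Agent.H914.VarClass Pool.Agent.H914.VarClass.Obj
  Pool.Agent.H914.WeilCohomology Pool.Agent.H281R3.HT Pool.Agent.W552 Pool.Agent.W539.Ker
  Pool.Agent.R911.Iso Pool.Agent.H447 Pool.Agent.H846.Det Pool.Agent.H846.Plc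
  Pool.Agent.H846.Hdt Pool.Agent.H846.Deg2

variable {k : Type u} [Field k] {𝒱 : VarClass k} {ops : CycleOps 𝒱}
  {W : WeilCohomology.{u, v} ops}

/-- The projection onto one degree is homogeneous. -/
lemma hm_proj {X : 𝒱.Obj} (j : ℕ) : Hm W 0 (proj (W.isInternal X) j) := by
  apply gr_ext (W.isInternal X)
  intro i a ha
  rw [LinearMap.comp_apply, LinearMap.add_apply, LinearMap.comp_apply, Fr.wt_gr ha, map_smul]
  by_cases hij : i = j
  · subst hij
    rw [proj_same _ ha, Fr.wt_gr ha]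
    simp
  · rw [proj_ne _ ha hij]
    simp

/-- The components of the images under homogeneous operators. -/
lemma HO.proj_apply {X Y : 𝒱.Obj} {m : ℤ} {u : W.H X →ₗ[W.K] W.H Y} (h : HO W X Y m u) {e j : ℕ}
    (hj : (e : ℤ) = j - X.dim + m + Y.dim) (b : W.H X) :
    proj (W.isInternal Y) e (u b) = u (proj (W.isInternal X) j b) := by
  refine gr_induction (W.isInternal X) (p := fun b => proj (W.isInternal Y) e (u b) =
    u (proj (W.isInternal X) j b)) ?_ ?_ b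
  · intro l b hb
    by_cases hl : l = j
    · subst hl
      rw [proj_same _ hb, proj_same _ (h.mem hb hj)]
    · rw [proj_ne _ hb hl, map_zero]
      by_cases hneg : (l : ℤ) - X.dim + m + Y.dim < 0
      · rw [h.eq_zero hb hneg, map_zero]
      · push Not at hneg
        obtain ⟨e', he'⟩ := Int.eq_ofNat_of_zero_le hneg
        rw [proj_ne _ (h.mem hb he'.symm) (by omega)]
  · intro a b ha hb
    rw [map_add, map_add, map_add, map_add, ha, hb]

/-- The components in degrees which are not reached. -/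
lemma HO.proj_zero {X Y : 𝒱.Obj} {m : ℤ} {u : W.H X →ₗ[W.K] W.H Y} (h : HO W X Y m u) {e : ℕ}
    (hj : ∀ j : ℕ, (e : ℤ) ≠ j - X.dim + m + Y.dim) (b : W.H X) :
    proj (W.isInternal Y) e (u b) = 0 := by
  refine gr_induction (W.isInternal X) (p := fun b => proj (W.isInternal Y) e (u b) = 0) ?_ ?_ b
  · intro l b hb
    by_cases hneg : (l : ℤ) - X.dim + m + Y.dim < 0
    · rw [h.eq_zero hb hneg, map_zero]
    · push Not at hneg
      obtain ⟨e', he'⟩ := Int.eq_ofNat_of_zero_le hneg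
      rw [proj_ne _ (h.mem hb he'.symm)]
      intro h0
      apply hj l
      rw [he', h0]
  · intro a b ha hb
    rw [map_add, map_add, ha, hb, add_zero]

/-- The inverse of a comparison isomorphism. -/
lemma isComparison_symm {k₀ : Type u} [Field k₀] {𝒱₀ : VarClass k₀} {ops₀ : CycleOps 𝒱₀}
    {W₀ : WeilCohomology.{u, v} ops₀} {Q : Polarized 𝒱} {Q₀ : Polarized 𝒱₀} {σ : CoefIso W W₀}
    {t : CohIso W W₀ Q.X Q₀.X} (ht : IsComparison W W₀ Q Q₀ σ t) (hD : Q.X.IsCyc 1 Q.D) :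
    IsComparison W₀ W Q₀ Q σ.symm t.symm where
  dim_eq := ht.dim_eq.symm
  isCyc := hD
  map :=
    { smul := fun c x => by
        apply t.injective
        rw [t.apply_symm_apply, ht.smul', t.apply_symm_apply, σ.apply_symm_apply]
      mem := fun j x hx => symm_mem ht hx
      tr_eq := fun x => by
        apply σ.injective
        rw [← ht.tr_eq', t.apply_symm_apply, σ.apply_symm_apply] }
  cl_eq := by
    apply t.injective
    have h1 : t (isoMap t.symm (classOf W₀ Q₀.X Q₀.D)) = classOf W₀ Q₀.X Q₀.D :=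
      t.apply_symm_apply _
    rw [h1]
    exact ht.cl_eq.symm

section Place

variable {P Q : Polarized 𝒱} {k₀ : Type u} [Field k₀] {𝒱₀ : VarClass k₀} {ops₀ : CycleOps 𝒱₀}
  {W₀ : WeilCohomology.{u, v} ops₀} {P₀ Q₀ : Polarized 𝒱₀}

/-- From nonzero values at a place to nonzero values. -/
lemma nonisotropic_of_value (S : Place W W₀ P Q P₀ Q₀) (hE : Q.X.IsCyc 1 Q.D) {i : ℕ}
    {z : (P.X.prod Q.X).Cycles} {z₀ : (P₀.X.prod Q₀.X).Cycles} (hz : ActsAsIn S i z z₀)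
    {y y' : W₀.H P₀.X} (hy : y ∈ W₀.gr P₀.X (2 * P.X.dim - i))
    (hy' : y' ∈ W₀.gr P₀.X (2 * P.X.dim - i)) {c : W₀.K}
    (hc : HodgeValueOn W₀ Q₀ i (corrMap W₀ z₀ y) (corrMap W₀ z₀ y') c) (hc0 : c ≠ 0) :
    HasNonisotropicImageIn W P Q i z := by
  have h1 : ∀ y ∈ W₀.gr P₀.X (2 * P.X.dim - i), S.t.symm (corrMap W₀ z₀ y) =
      corrMap W z (S.s.symm y) := by
    intro y hy
    have h2 := hz (S.s.symm y) (symm_mem S.fst hy)
    rw [isoMap, isoMap, RingEquiv.apply_symm_apply] at h2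
    rw [← h2, RingEquiv.symm_apply_apply]
  have h2 := value_spec (isComparison_symm S.snd hE) hc
  refine ⟨S.s.symm y, S.s.symm y', S.σ.symm c, symm_mem S.fst hy, symm_mem S.fst hy', ?_, ?_⟩
  · rw [← h1 y hy, ← h1 y' hy']
    exact h2
  · intro h0
    apply hc0
    exact (map_eq_zero_iff _ S.σ.symm.injective).1 h0

/-- **Correspondences detected at a place have nonisotropic images.** -/
theorem nonisotropic_of_detectedAt (S : Place W W₀ P Q P₀ Q₀) (hE : Q.X.IsCyc 1 Q.D) {i : ℕ}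
    (hiP : i ≤ P.X.dim) (hiQ : i ≤ Q.X.dim) {Z : Polarized 𝒱₀} (hQ₀ : IsLefschetz W₀ Q₀)
    (hZ : IsLefschetz W₀ Z) {z : (P.X.prod Q.X).Cycles} (h : IsDetectedAtIn S Z i z) :
    HasNonisotropicImageIn W P Q i z := by
  obtain ⟨z₀, p, r, c, hz₀, hact, hc, hpr, hH, b, hb, hne⟩ := h
  obtain ⟨gY, GY⟩ := exists_gd hQ₀.isCyc hQ₀.hard hQ₀.std
  obtain ⟨gZ, GZ⟩ := exists_gd hZ.isCyc hZ.hard hZ.std
  have hdP := S.fst.dim_eq
  have hdQ := S.snd.dim_eq
  have hU : HO W₀ P₀.X Q₀.X (2 * i - (P₀.X.prod Q₀.X).dim) (W₀.corr (W₀.cl _ z₀)) :=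
    HO.of_cyc hz₀
  have hC : HO W₀ Z.X P₀.X (2 * p - (Z.X.prod P₀.X).dim) (W₀.corr (W₀.cl _ c)) := HO.of_cyc hc
  rw [dim_prod] at hU hC
  set U := W₀.corr (W₀.cl _ z₀) with hUd
  set C := W₀.corr (W₀.cl _ c) with hCd
  have hb' : C b ∈ W₀.gr P₀.X (2 * P.X.dim - i) := hb
  have hcast : ((2 * P.X.dim - i : ℕ) : ℤ) = 2 * P.X.dim - i := by
    rw [Nat.cast_sub (by omega)]
    push_cast
    ring
  -- the degree on `Z`
  obtain ⟨j, hj⟩ : ∃ j : ℕ, ((2 * P.X.dim - i : ℕ) : ℤ) =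
      j - Z.X.dim + (2 * p - ((Z.X.dim + P₀.X.dim : ℕ) : ℤ)) + P₀.X.dim := by
    by_contra h0
    push Not at h0
    apply hne
    have h1 := hC.proj_zero h0 b
    rw [proj_same _ hb'] at h1
    change U (C b) = 0
    rw [h1, map_zero]
  have hCb : C b = C (proj (W₀.isInternal Z.X) j b) := by
    rw [← hC.proj_apply hj b, proj_same _ hb']
  set w := U ∘ₗ C ∘ₗ proj (W₀.isInternal Z.X) j with hw
  have hπ : HO W₀ Z.X Z.X 0 (proj (W₀.isInternal Z.X) j) := ⟨HKn.proj_aop' GZ j, hm_proj j⟩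
  have hwo : HO W₀ Z.X Q₀.X (2 * r - (Z.X.prod Q₀.X).dim) w := by
    refine (hU.comp (hC.comp hπ)).cast ?_
    rw [dim_prod]
    push_cast
    have : (p : ℤ) + i = r + P₀.X.dim := by exact_mod_cast hpr
    linarith
  obtain ⟨cw, hcw, hcw'⟩ := hwo.cyc rfl
  have hwb : w b ≠ 0 := by
    change U (C (proj (W₀.isInternal Z.X) j b)) ≠ 0
    rw [← hCb]
    exact hne
  obtain ⟨q, hq, hq'⟩ := bf_pos_codim (gd_prod GZ GY).fr (l := r) (Or.inl le_rfl) hH
    (c := W₀.cl _ cw) ⟨_, hcw, rfl⟩ (by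
      intro h0
      apply hwb
      rw [← hcw', h0, corr_zero, LinearMap.zero_apply])
  obtain ⟨w', -, hadj⟩ := GZ.adj GY hwo.1
  have htr := trace_adj GZ GY (AS.of (W := W₀) ⟨cw, hcw, rfl⟩) (u' := w') (by
    rw [hcw']
    exact hadj)
  rw [hcw'] at htr
  have hex : ∃ b₁ b₂ : W₀.H Z.X, bf W₀ Q₀.X Q₀.D gY (w b₁) (w b₂) ≠ 0 := by
    by_contra h0
    push Not at h0
    have h1 : w' ∘ₗ w = 0 := by
      apply LinearMap.ext
      intro b₂
      apply GZ.nondeg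
      intro b₁
      rw [LinearMap.comp_apply, ← hadj, h0]
    rw [h1, map_zero] at htr
    rw [← htr] at hq'
    exact hq.ne' (by exact_mod_cast hq'.symm)
  obtain ⟨b₁, b₂, h12⟩ := hex
  have hmem : ∀ b₁, C (proj (W₀.isInternal Z.X) j b₁) ∈ W₀.gr P₀.X (2 * P.X.dim - i) :=
    fun b₁ => hC.mem (proj_mem _ _ _) hj
  have hmem' : ∀ b₁, w b₁ ∈ W₀.gr Q₀.X i := by
    intro b₁
    apply hU.mem (hmem b₁)
    rw [hcast, hdP]
    push_cast
    ring
  obtain ⟨c₀, hc₀⟩ := exists_value (Q := Q₀) GY.ls (i := i) (by omega) (hmem' b₁) (hmem' b₂)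
  refine nonisotropic_of_value S hE hact (hmem b₁) (hmem b₂) (c := c₀) hc₀ ?_
  rintro rfl
  apply h12
  rw [bf_of_value GY.fr.hD GY.ls (by omega) hc₀, mul_zero]

end Place

/-- **The Hodge index theorem.** -/
theorem exists_value_divisor {Q : Polarized 𝒱} (hd : 2 ≤ Q.X.dim) (hD : Q.X.IsCyc 1 Q.D)
    (hH : HomHodgeUpTo W Q 1) {c : W.H Q.X} (hc : c ∈ algClasses W Q.X 1) (hc0 : c ≠ 0) :
    ∃ q : W.K, q ≠ 0 ∧ HodgeValueOn W Q 2 c c q := by
  have h1 : (1 : W.H Q.X) ≠ 0 := by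
    intro h
    apply hc0
    rw [← one_mul c, h, zero_mul]
  obtain ⟨δ, hδ, hδ'⟩ := deg_pos hD hH h1
  set ξ := W.cl Q.X Q.D with hξ
  have hξa : ξ ∈ algClasses W Q.X 1 := ⟨Q.D, hD, rfl⟩
  obtain ⟨l, hl⟩ := ((AS.of hc).mul (as_pow (W := W) hD (Q.X.dim - 1))).tr
  -- the primitive class
  set c' := c - ((l / δ : ℚ) : W.K) • ξ with hc'
  have hc'a : c' ∈ algClasses W Q.X 1 := alg_sub hc (alg_smul _ hξa)
  obtain ⟨z, hz, hzc⟩ := hc'a
  have hδK : (δ : W.K) ≠ 0 := by exact_mod_cast hδ.ne'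
  have hξn : W.tr Q.X (ξ * ξ ^ (Q.X.dim - 1)) = δ := by
    rw [← pow_succ', show Q.X.dim - 1 + 1 = Q.X.dim by omega, hδ']
  have h2 : W.tr Q.X (c' * ξ ^ (Q.X.dim - 1)) = 0 := by
    rw [hc', sub_mul, smul_mul_assoc, map_sub, map_smul, hl, hξn, smul_eq_mul]
    push_cast
    rw [div_mul_cancel₀ _ hδK, sub_self]
  have h3 : ξ ^ (Q.X.dim - 1) * c' = 0 := by
    rw [pow_comm hD]
    apply eq_zero_top _ h2
    have h3 := W.mul_mem (X := Q.X) (a := c') (by rw [← hzc]; exact W.cl_mem hz)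
      (pow_mem hD (Q.X.dim - 1))
    rwa [show 2 * 1 + 2 * (Q.X.dim - 1) = 2 * Q.X.dim by omega] at h3
  have hprim : Primitive W Q.X Q.D 1 z := by
    refine ⟨hz, ?_⟩
    rw [cl_divPow, hzc, LinearMap.pow_mulLeft, LinearMap.mulLeft_apply,
      show Q.X.dim - 2 * 1 + 1 = Q.X.dim - 1 by omega, h3]
  -- the pairing
  have hp : W.tr Q.X (c' * c' * ξ ^ (Q.X.dim - 2)) = ((-pairing ops Q.X Q.D 1 z z : ℚ) : W.K) := by
    have h4 : Q.X.IsCyc (1 + (1 + (Q.X.dim - 2 * 1)))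
        (ops.mul z (divPow ops Q.D (Q.X.dim - 2 * 1) z)) := ops.mul_mem hz (divPow_mem hD _ hz)
    have h5 : Q.X.IsCyc Q.X.dim (ops.mul z (divPow ops Q.D (Q.X.dim - 2 * 1) z)) := by
      convert h4 using 1
      omega
    rw [pairing, pow_one, neg_one_mul, neg_neg, ← W.tr_cl h5, W.cl_mul, cl_divPow,
      LinearMap.pow_mulLeft, LinearMap.mulLeft_apply, hzc, pow_comm hD, ← mul_assoc, ← hξ,
      mul_one 2]
  have hpos : c' ≠ 0 → 0 < pairing ops Q.X Q.D 1 z z := by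
    intro h
    apply hH 1 le_rfl (by omega) z hprim
    rw [classOf, hzc]
    exact h
  have hnn : 0 ≤ pairing ops Q.X Q.D 1 z z := by
    by_cases h : c' = 0
    · rw [h, zero_mul, zero_mul, map_zero] at hp
      have : (0 : ℚ) = -pairing ops Q.X Q.D 1 z z := by exact_mod_cast hp
      linarith
    · exact (hpos h).le
  set p := pairing ops Q.X Q.D 1 z z with hpd
  -- the decomposition
  set a : ℕ → W.H Q.X := fun j => if j = 0 then c' else ((l / δ : ℚ) : W.K) • 1 with ha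
  have hprm : ∀ j, 2 * j ≤ 2 → IsPrimitiveIn (W.gr Q.X) ξ Q.X.dim (2 - 2 * j) (a j) := by
    intro j hj
    rcases Nat.eq_zero_or_pos j with rfl | h0
    · refine ⟨?_, ?_⟩
      · change c' ∈ W.gr Q.X 2
        rw [← hzc]
        exact W.cl_mem hz
      · change ξ ^ (Q.X.dim - 2 + 1) * c' = 0
        rw [show Q.X.dim - 2 + 1 = Q.X.dim - 1 by omega, h3]
    · obtain rfl : j = 1 := by omega
      refine ⟨?_, ?_⟩
      · change ((l / δ : ℚ) : W.K) • (1 : W.H Q.X) ∈ W.gr Q.X 0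
        exact Submodule.smul_mem _ _ (W.one_mem Q.X)
      · change ξ ^ (Q.X.dim - 0 + 1) * (((l / δ : ℚ) : W.K) • (1 : W.H Q.X)) = 0
        have h4 := pow_mem (W := W) hD (Q.X.dim - 0 + 1)
        rw [W.gr_eq_bot _ _ (by omega), Submodule.mem_bot] at h4
        rw [← hξ] at h4
        rw [h4, zero_mul]
  have hsum : c = lefSum ξ 2 a := by
    rw [lefSum, Finset.sum_range_succ, Finset.sum_range_succ, Finset.sum_range_zero]
    change c = 0 + ξ ^ 0 * c' + ξ ^ 1 * (((l / δ : ℚ) : W.K) • (1 : W.H Q.X))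
    rw [pow_zero, one_mul, zero_add, pow_one, mul_smul_comm, mul_one, hc', sub_add_cancel]
  have hval : hodgeSum (W.tr Q.X) ξ Q.X.dim 2 a a =
      ((-(p * ((Q.X.dim - 2).factorial : ℚ)⁻¹ + ((Q.X.dim - 1).factorial : ℚ)⁻¹ *
        ((l / δ) ^ 2 * δ)) : ℚ) : W.K) := by
    rw [hodgeSum, Finset.sum_range_succ, Finset.sum_range_succ, Finset.sum_range_zero]
    change 0 + (-1) ^ 0 * ((Nat.factorial 0 : W.K) * ((Q.X.dim - 2 + 0).factorial : W.K)⁻¹) *
      W.tr Q.X (c' * c' * ξ ^ (Q.X.dim - 2 + 2 * 0)) +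
        (-1) ^ 1 * ((Nat.factorial 1 : W.K) * ((Q.X.dim - 2 + 1).factorial : W.K)⁻¹) *
      W.tr Q.X ((((l / δ : ℚ) : W.K) • (1 : W.H Q.X)) * (((l / δ : ℚ) : W.K) • (1 : W.H Q.X)) *
        ξ ^ (Q.X.dim - 2 + 2 * 1)) = _
    rw [Nat.mul_zero, Nat.add_zero, hp, smul_mul_smul_comm, mul_one, smul_mul_assoc, one_mul,
      show Q.X.dim - 2 + 2 * 1 = Q.X.dim by omega, map_smul, hδ',
      show Q.X.dim - 2 + 1 = Q.X.dim - 1 by omega, smul_eq_mul, Nat.factorial_zero,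
      Nat.factorial_one]
    push_cast
    ring
  refine ⟨_, ?_, a, a, hprm, hprm, hsum, hsum, rfl⟩
  change hodgeSum (W.tr Q.X) ξ Q.X.dim 2 a a ≠ 0
  rw [hval]
  have hf1 : (0 : ℚ) < ((Q.X.dim - 2).factorial : ℚ)⁻¹ := by positivity
  have hf2 : (0 : ℚ) < ((Q.X.dim - 1).factorial : ℚ)⁻¹ := by positivity
  have h10 : 0 < p * ((Q.X.dim - 2).factorial : ℚ)⁻¹ + ((Q.X.dim - 1).factorial : ℚ)⁻¹ *
      ((l / δ) ^ 2 * δ) := by
    by_cases h : c' = 0
    · have hl0 : l / δ ≠ 0 := by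
        intro h11
        apply hc0
        rw [hc', h11, Rat.cast_zero, zero_smul, sub_zero] at h
        exact h
      have h12 : 0 < (l / δ) ^ 2 * δ := by positivity
      have : 0 < ((Q.X.dim - 1).factorial : ℚ)⁻¹ * ((l / δ) ^ 2 * δ) := mul_pos hf2 h12
      have : 0 ≤ p * ((Q.X.dim - 2).factorial : ℚ)⁻¹ := mul_nonneg hnn hf1.le
      linarith
    · have h11 := hpos h
      have : 0 < p * ((Q.X.dim - 2).factorial : ℚ)⁻¹ := mul_pos h11 hf1
      have : 0 ≤ ((Q.X.dim - 1).factorial : ℚ)⁻¹ * ((l / δ) ^ 2 * δ) :=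
        mul_nonneg hf2.le (by positivity)
      linarith
  intro h0
  have h11 : -(p * ((Q.X.dim - 2).factorial : ℚ)⁻¹ + ((Q.X.dim - 1).factorial : ℚ)⁻¹ *
      ((l / δ) ^ 2 * δ)) = 0 := by exact_mod_cast h0
  linarith

/-- **Correspondences detected by curves have nonisotropic images.** -/
theorem nonisotropic_two {P Q : Polarized 𝒱} (hP : 2 ≤ P.X.dim) (hd : 2 ≤ Q.X.dim)
    (hE : Q.X.IsCyc 1 Q.D) {z : (P.X.prod Q.X).Cycles} (h : IsDetectedByCurve W P Q z) :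
    HasNonisotropicImageIn W P Q 2 z := by
  obtain ⟨k₀, _, 𝒱₀, ops₀, W₀, P₀, Q₀, S, hH, z₀, c, hz₀, hz, hc, hne⟩ := h
  have hdP := S.fst.dim_eq
  have hdQ := S.snd.dim_eq
  have hcm : classOf W₀ P₀.X c ∈ W₀.gr P₀.X (2 * P.X.dim - 2) := by
    have h1 := W₀.cl_mem hc
    rwa [show 2 * (P₀.X.dim - 1) = 2 * P.X.dim - 2 by omega] at h1
  have halg : corrMap W₀ z₀ (classOf W₀ P₀.X c) ∈ algClasses W₀ Q₀.X 1 := by
    apply AS.alg
    · exact AS.corr (AS.of ⟨z₀, hz₀, rfl⟩) (AS.of ⟨c, hc, rfl⟩)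
    · apply Deg2.Hm.mem (hm_cyc hz₀) (W₀.cl_mem hc)
      rw [dim_prod]
      omega
  obtain ⟨q, hq, hq'⟩ := exists_value_divisor (by omega) S.snd.isCyc hH halg hne
  exact nonisotropic_of_value S hE (i := 2) hz hcm hcm hq' hq

end Pool.Agent.H846.Bdeg
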