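import Pool.Agent.H846.Bdeg.Core

/-!
# Rational traces from the inverses in lower degrees
-/

open CategoryTheory AlgebraicGeometry Finset

universe u v

namespace Pool.Agent.H846.Bdeg

open Pool.Agent.H914 Pool.Agent.H914.VarClass Pool.Agent.H914.VarClass.Obj
  Pool.Agent.H914.WeilCohomology Pool.Agent.H281R3.HT Pool.Agent.W552 Pool.Agent.W539.Ker
  Pool.Agent.R911.Iso Pool.Agent.H447 Pool.Agent.H846.Det Pool.Agent.H846.Plc
  Pool.Agent.H846.Hdt

variable {k : Type u} [Field k] {𝒱 : VarClass k} {ops : CycleOps 𝒱}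
  {W : WeilCohomology.{u, v} ops} {X : 𝒱.Obj} {D : X.Cycles} {f : Module.End W.K (W.H X)}

/-- The algebraic operator `A` is the projection onto the cohomology in the degrees `j < i` and
`j > 2 n - i`. -/
def IsOuter (W : WeilCohomology.{u, v} ops) (X : 𝒱.Obj) (i : ℕ)
    (A : Module.End W.K (W.H X)) : Prop :=
  HO W X X 0 A ∧ (∀ j, (j < i ∨ 2 * X.dim < i + j) → ∀ x ∈ W.gr X j, A x = x) ∧
    ∀ j, i ≤ j → i + j ≤ 2 * X.dim → ∀ x ∈ W.gr X j, A x = 0

lemma isOuter_zero : IsOuter W X 0 0 := by
  refine ⟨HO.zero, fun j hj x hx => ?_, fun _ _ _ _ _ => rfl⟩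
  rw [W.gr_eq_bot X j (by omega)] at hx
  rw [(Submodule.mem_bot _).1 hx, map_zero]

/-- The next projection. -/
lemma isOuter_succ (hD : X.IsCyc 1 D)
    (t : LefStr (W.isInternal X) X.dim (LinearMap.mulLeft W.K (W.cl X D)) f) {i : ℕ}
    (hi : i < X.dim) {A : Module.End W.K (W.H X)} (hA : IsOuter W X i A) (hinv : InvIn W X D i) :
    ∃ A', IsOuter W X (i + 1) A' := by
  obtain ⟨hA0, hA1, hA2⟩ := hA
  obtain ⟨θ, hθ, hθ1⟩ := hinv
  set c := X.dim - i with hc
  set F : Module.End W.K (W.H X) := (1 - A) * θ * (1 - A) with hF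
  have h1A : HO W X X 0 (1 - A) := HO.one.sub hA0
  have hFo : HO W X X (-(2 * c)) F := ((h1A.mul hθ).mul h1A).cast (by ring)
  have hF1 : ∀ x ∈ W.gr X (2 * X.dim - i), F x = θ x := by
    intro x hx
    have e1 : A x = 0 := hA2 _ (by omega) (by omega) x hx
    have hθm : θ x ∈ W.gr X i := by
      apply hθ.mem hx
      rw [Nat.cast_sub (by omega), hc, Nat.cast_sub (by omega)]
      push_cast
      ring
    have e2 : A (θ x) = 0 := hA2 _ le_rfl (by omega) _ hθm
    simp only [hF, Module.End.mul_apply, LinearMap.sub_apply, Module.End.one_apply, e1, e2,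
      sub_zero]
  have hF2 : ∀ j, j ≠ 2 * X.dim - i → ∀ x ∈ W.gr X j, F x = 0 := by
    intro j hj x hx
    by_cases hj1 : j < i ∨ 2 * X.dim < i + j
    · simp only [hF, Module.End.mul_apply, LinearMap.sub_apply, Module.End.one_apply,
        hA1 j hj1 x hx, sub_self, map_zero]
    · push Not at hj1
      have e1 : A x = 0 := hA2 _ hj1.1 (by omega) x hx
      simp only [hF, Module.End.mul_apply, LinearMap.sub_apply, Module.End.one_apply, e1,
        sub_zero]
      by_cases hj2 : 2 * c ≤ j
      · have hθm : θ x ∈ W.gr X (j - 2 * c) := by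
          apply hθ.mem hx
          rw [Nat.cast_sub hj2]
          push_cast
          ring
        rw [hA1 _ (Or.inl (by omega)) _ hθm, sub_self]
      · have h0 : θ x = 0 := by
          apply hθ.eq_zero hx
          omega
        rw [h0, map_zero, sub_zero]
  have hLF : ∀ x ∈ W.gr X (2 * X.dim - i), Lc W X D c (F x) = x := by
    intro x hx
    obtain ⟨b, hb, hb'⟩ := (t.hHL i (by omega)).2 x hx
    have h4 : Lc W X D c b = x := hb'
    rw [hF1 x hx, ← h4, hθ1 b hb]
  have hFL : ∀ x ∈ W.gr X i, F (Lc W X D c x) = x := by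
    intro x hx
    have h4 := Lc_mem hD hx c
    rw [show i + 2 * c = 2 * X.dim - i by omega] at h4
    rw [hF1 _ h4, hθ1 x hx]
  refine ⟨A + F * Lc W X D c + Lc W X D c * F, ?_, ?_, ?_⟩
  · exact (hA0.add ((hFo.mul (Lc_ho hD c)).cast (by ring))).add
      (((Lc_ho hD c).mul hFo).cast (by ring))
  · intro j hj x hx
    simp only [LinearMap.add_apply, Module.End.mul_apply]
    by_cases hji : j = i
    · subst hji
      rw [hA2 _ le_rfl (by omega) x hx, hFL x hx, hF2 j (by omega) x hx, map_zero, zero_add,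
        add_zero]
    by_cases hji2 : j = 2 * X.dim - i
    · subst hji2
      rw [hA2 _ (by omega) (by omega) x hx, hLF x hx,
        hF2 _ (by omega) _ (Lc_mem hD hx c), zero_add, zero_add]
    · rw [hA1 j (by omega) x hx, hF2 j hji2 x hx, hF2 _ (by omega) _ (Lc_mem hD hx c), map_zero,
        add_zero, add_zero]
  · intro j hj1 hj2 x hx
    simp only [LinearMap.add_apply, Module.End.mul_apply]
    rw [hA2 j (by omega) (by omega) x hx, hF2 j (by omega) x hx,
      hF2 _ (by omega) _ (Lc_mem hD hx c), map_zero, add_zero, add_zero]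

/-- The projections exist. -/
theorem exists_outer (hD : X.IsCyc 1 D)
    (t : LefStr (W.isInternal X) X.dim (LinearMap.mulLeft W.K (W.cl X D)) f) :
    ∀ i ≤ X.dim, (∀ j < i, InvIn W X D j) → ∃ A, IsOuter W X i A := by
  intro i
  induction i with
  | zero => intro _ _; exact ⟨0, isOuter_zero⟩
  | succ i ih =>
    intro hi hinv
    obtain ⟨A, hA⟩ := ih (by omega) (fun j hj => hinv j (by omega))
    exact isOuter_succ hD t (by omega) hA (hinv i (by omega))

/-- **The traces are rational.** -/
theorem ratTr {i : ℕ} (h : SD W X D f i) {A : Module.End W.K (W.H X)} (hA : IsOuter W X i A) :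
    RatTr W X D f i := by
  rintro T ⟨u, hu, hT⟩
  obtain ⟨hA0, hA1, hA2⟩ := hA
  obtain ⟨s, hs, hs'⟩ := h.star
  have hle := h.le
  set T' : Module.End W.K (W.H X) := u * ((1 - A) * (s * (1 - A))) with hT'
  have h1A : HO W X X 0 (1 - A) := HO.one.sub hA0
  have hT'o : HO W X X 0 T' :=
    (hu.mul (h1A.mul (hs.mul h1A))).cast (by ring)
  have hT'1 : ∀ x ∈ W.gr X i, T' x = u (st W X D f x) := by
    intro x hx
    have e1 : A x = 0 := hA2 _ le_rfl (by omega) x hx
    have e2 : A (st W X D f x) = 0 := hA2 _ (by omega) (by omega) _ (h.st_mem hx)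
    simp only [hT', Module.End.mul_apply, LinearMap.sub_apply, Module.End.one_apply, e1,
      sub_zero, hs' x hx, e2]
  have hT'2 : ∀ j, j ≠ i → ∀ x ∈ W.gr X j, T' x = 0 := by
    intro j hj x hx
    by_cases hj1 : j < i ∨ 2 * X.dim < i + j
    · simp only [hT', Module.End.mul_apply, LinearMap.sub_apply, Module.End.one_apply,
        hA1 j hj1 x hx, sub_self, map_zero]
    · push Not at hj1
      have e1 : A x = 0 := hA2 _ hj1.1 (by omega) x hx
      have hsm : s x ∈ W.gr X (j + 2 * (X.dim - i)) := by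
        apply hs.mem hx
        push_cast [Nat.cast_sub hle]
        ring
      simp only [hT', Module.End.mul_apply, LinearMap.sub_apply, Module.End.one_apply, e1,
        sub_zero, hA1 _ (Or.inr (by omega)) _ hsm, sub_self, map_zero]
  have hT'm : ∀ x, T' x ∈ W.gr X i := by
    intro x
    refine gr_induction (W.isInternal X) (p := fun x => T' x ∈ W.gr X i) ?_ ?_ x
    · intro j x hx
      by_cases hj : j = i
      · subst hj
        exact hT'o.mem hx (by ring)
      · rw [hT'2 j hj x hx]
        exact Submodule.zero_mem _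
    · intro a b ha hb
      rw [map_add]
      exact Submodule.add_mem _ ha hb
  -- the trace
  have h1 : LinearMap.trace W.K (W.gr X i) T = LinearMap.trace W.K (W.H X) T' := by
    rw [← LinearMap.trace_restrict_eq_of_forall_mem (W.gr X i) T' hT'm]
    congr 1
    apply LinearMap.ext
    intro x
    apply Subtype.ext
    rw [hT, LinearMap.coe_restrict_apply, hT'1 x x.2]
  obtain ⟨⟨c, hc, hcT⟩, -⟩ := hT'o
  obtain ⟨q, hq⟩ := (hc.map (diag X)).tr
  have h2 : par (W.isInternal X) * T' = ((-1 : W.K) ^ i) • T' := by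
    apply LinearMap.ext
    intro x
    rw [Module.End.mul_apply, par, scal_apply _ _ (hT'm x), LinearMap.smul_apply]
  have h3 := trace_par_corr (W := W) c
  rw [hcT, h2, map_smul, hq, smul_eq_mul] at h3
  refine ⟨(-1) ^ i * q, ?_⟩
  rw [h1]
  push_cast
  rw [← h3, ← mul_assoc, neg_sq, one_mul]

end Pool.Agent.H846.Bdeg
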