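import Pool.Agent.H846.Bdeg.Defs
import Pool.Agent.H846.Bdeg.Outer
import Pool.Graph.R_seed8.W537.OneCycleB

/-!
# The values of the Hodge-Riemann form
-/

open CategoryTheory AlgebraicGeometry Finset

universe u v

namespace Pool.Agent.H846.Bdeg

open Pool.Agent.H914 Pool.Agent.H914.VarClass Pool.Agent.H914.VarClass.Obj
  Pool.Agent.H914.WeilCohomology Pool.Agent.H281R3.HT Pool.Agent.W552 Pool.Agent.W539.Ker
  Pool.Agent.R911.Iso Pool.Agent.H447 Pool.Agent.H846.Det Pool.Agent.H846.Plc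
  Pool.Agent.H846.Hdt Pool.Agent.H846.Deg2

variable {k : Type u} [Field k] {𝒱 : VarClass k} {ops : CycleOps 𝒱}
  {W : WeilCohomology.{u, v} ops}

section One

variable {X : 𝒱.Obj} {D : X.Cycles} {f : Module.End W.K (W.H X)}

lemma prm_iff {j : ℕ} {a : W.H X} :
    IsPrimitiveIn (W.gr X) (W.cl X D) X.dim j a ↔ Prm W X D j a := by
  rw [IsPrimitiveIn, Prm, Lc_apply]

lemma prm_zero (j : ℕ) : Prm W X D j 0 := ⟨Submodule.zero_mem _, map_zero _⟩

lemma Prm.add {j : ℕ} {a b : W.H X} (ha : Prm W X D j a) (hb : Prm W X D j b) :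
    Prm W X D j (a + b) := ⟨Submodule.add_mem _ ha.1 hb.1, by rw [map_add, ha.2, hb.2, add_zero]⟩

/-- The Lefschetz decomposition. -/
lemma exists_lef (t : LefStr (W.isInternal X) X.dim (LinearMap.mulLeft W.K (W.cl X D)) f)
    {i : ℕ} (hi : i ≤ X.dim) {x : W.H X} (hx : x ∈ W.gr X i) :
    ∃ a : ℕ → W.H X, (∀ j, 2 * j ≤ i → Prm W X D (i - 2 * j) (a j)) ∧
      x = lefSum (W.cl X D) i a := by
  refine prm_induction t hi (p := fun x => ∃ a : ℕ → W.H X,
    (∀ j, 2 * j ≤ i → Prm W X D (i - 2 * j) (a j)) ∧ x = lefSum (W.cl X D) i a) ?_ ?_ hx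
  · rintro x y ⟨a, ha, rfl⟩ ⟨b, hb, rfl⟩
    refine ⟨fun j => a j + b j, fun j hj => (ha j hj).add (hb j hj), ?_⟩
    rw [lefSum, lefSum, lefSum, ← Finset.sum_add_distrib]
    exact Finset.sum_congr rfl (fun j _ => (mul_add _ _ _).symm)
  · intro j hj a ha
    refine ⟨fun l => if l = j then a else 0, fun l hl => ?_, ?_⟩
    · by_cases h : l = j
      · subst h
        simpa using ha
      · simpa [h] using prm_zero (W := W) (D := D) (i - 2 * l)
    · rw [lefSum, Finset.sum_eq_single j, if_pos rfl, Lc_apply]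
      · intro l _ hl
        rw [if_neg hl, mul_zero]
      · intro h
        exact absurd (Finset.mem_range.2 (by omega)) h

/-- The products of the components. -/
lemma tr_cross (hD : X.IsCyc 1 D) {i l j : ℕ} (hi : i ≤ X.dim) (hl : 2 * l ≤ i) (hj : 2 * j ≤ i)
    (hlj : l ≠ j) {a b : W.H X} (ha : Prm W X D (i - 2 * l) a) (hb : Prm W X D (i - 2 * j) b) :
    W.tr X (Lc W X D l a * Lc W X D (X.dim - i + j) b) = 0 := by
  rcases lt_or_gt_of_ne hlj with h | h
  · -- `l < j`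
    rw [← tr_Lc hD]
    have h1 : Lc W X D (X.dim - i + j) (Lc W X D l a) = 0 := by
      rw [← Module.End.mul_apply, ← Lc_add,
        show X.dim - i + j + l = (j - l - 1) + (X.dim - (i - 2 * l) + 1) by omega, Lc_add,
        Module.End.mul_apply, ha.2, map_zero]
    rw [h1, zero_mul, map_zero]
  · rw [tr_Lc hD]
    have h1 : Lc W X D l (Lc W X D (X.dim - i + j) b) = 0 := by
      rw [← Module.End.mul_apply, ← Lc_add,
        show l + (X.dim - i + j) = (l - j - 1) + (X.dim - (i - 2 * j) + 1) by omega, Lc_add,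
        Module.End.mul_apply, hb.2, map_zero]
    rw [h1, mul_zero, map_zero]

/-- The form in terms of the Lefschetz decompositions. -/
lemma bf_lef (hD : X.IsCyc 1 D)
    (t : LefStr (W.isInternal X) X.dim (LinearMap.mulLeft W.K (W.cl X D)) f) {i : ℕ}
    (hi : i ≤ X.dim) {a b : ℕ → W.H X} (ha : ∀ j, 2 * j ≤ i → Prm W X D (i - 2 * j) (a j))
    (hb : ∀ j, 2 * j ≤ i → Prm W X D (i - 2 * j) (b j)) :
    bf W X D f (lefSum (W.cl X D) i a) (lefSum (W.cl X D) i b) =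
      (sg i : W.K) * hodgeSum (W.tr X) (W.cl X D) X.dim i a b := by
  have hj : ∀ j ∈ range (i / 2 + 1), 2 * j ≤ i := by
    intro j hj
    rw [Finset.mem_range] at hj
    omega
  have h1 : st W X D f (lefSum (W.cl X D) i b) =
      ∑ j ∈ range (i / 2 + 1), (gam X.dim i j : W.K) • Lc W X D (X.dim - i + j) (b j) := by
    rw [lefSum, map_sum]
    apply Finset.sum_congr rfl
    intro j hjr
    rw [← Lc_apply, st_prm hD t hi (hj j hjr) (hb j (hj j hjr)), ← Module.End.mul_apply,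
      ← Lc_add]
  rw [bf_apply, h1, lefSum, Finset.sum_mul, map_sum, hodgeSum, Finset.mul_sum]
  apply Finset.sum_congr rfl
  intro l hl
  rw [Finset.mul_sum, map_sum, Finset.sum_eq_single l]
  · rw [mul_smul_comm, map_smul, smul_eq_mul, ← Lc_apply]
    have h2 : W.tr X (Lc W X D l (a l) * Lc W X D (X.dim - i + l) (b l)) =
        W.tr X (a l * b l * W.cl X D ^ (X.dim - i + 2 * l)) := by
      rw [tr_Lc hD, ← Module.End.mul_apply, ← Lc_add, Lc_apply, Deg2.pow_comm hD, mul_assoc,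
        show l + (X.dim - i + l) = X.dim - i + 2 * l by ring]
    rw [h2, gam]
    push_cast
    ring
  · intro j hjr hne
    rw [mul_smul_comm, map_smul, ← Lc_apply,
      tr_cross hD hi (hj l hl) (hj j hjr) (Ne.symm hne) (ha l (hj l hl)) (hb j (hj j hjr)),
      smul_zero]
  · intro h
    exact absurd hl h

lemma sg_ne (i : ℕ) : (sg i : W.K) ≠ 0 := by
  intro h
  have h2 := sg_sq i
  have h3 : sg i = 0 := by exact_mod_cast h
  rw [h3] at h2
  simp at h2

end One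

section Polarized

variable {Q : Polarized 𝒱} {g : Module.End W.K (W.H Q.X)}

/-- The form in terms of the values. -/
lemma bf_of_value (hD : Q.X.IsCyc 1 Q.D)
    (t : LefStr (W.isInternal Q.X) Q.X.dim (LinearMap.mulLeft W.K (W.cl Q.X Q.D)) g) {i : ℕ}
    (hi : i ≤ Q.X.dim) {x x' : W.H Q.X} {c : W.K} (h : HodgeValueOn W Q i x x' c) :
    bf W Q.X Q.D g x x' = (sg i : W.K) * c := by
  obtain ⟨a, a', ha, ha', rfl, rfl, rfl⟩ := h
  exact bf_lef hD t hi (fun j hj => prm_iff.1 (ha j hj)) (fun j hj => prm_iff.1 (ha' j hj))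

/-- The values exist. -/
lemma exists_value
    (t : LefStr (W.isInternal Q.X) Q.X.dim (LinearMap.mulLeft W.K (W.cl Q.X Q.D)) g) {i : ℕ}
    (hi : i ≤ Q.X.dim) {x x' : W.H Q.X} (hx : x ∈ W.gr Q.X i) (hx' : x' ∈ W.gr Q.X i) :
    ∃ c, HodgeValueOn W Q i x x' c := by
  obtain ⟨a, ha, hxa⟩ := exists_lef t hi hx
  obtain ⟨a', ha', hxa'⟩ := exists_lef t hi hx'
  exact ⟨_, a, a', fun j hj => prm_iff.2 (ha j hj), fun j hj => prm_iff.2 (ha' j hj), hxa, hxa',
    rfl⟩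

/-- The values are compatible with the comparison isomorphisms. -/
lemma value_spec {k₀ : Type u} [Field k₀] {𝒱₀ : VarClass k₀} {ops₀ : CycleOps 𝒱₀}
    {W₀ : WeilCohomology.{u, v} ops₀} {Q₀ : Polarized 𝒱₀} {σ : CoefIso W W₀}
    {t : CohIso W W₀ Q.X Q₀.X} (ht : IsComparison W W₀ Q Q₀ σ t) {i : ℕ} {x x' : W.H Q.X}
    {c : W.K} (h : HodgeValueOn W Q i x x' c) : HodgeValueOn W₀ Q₀ i (t x) (t x') (σ c) := by
  obtain ⟨a, a', ha, ha', rfl, rfl, rfl⟩ := h
  have hξ : classOf W₀ Q₀.X Q₀.D = t (classOf W Q.X Q.D) := ht.cl_eq.symm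
  have hprim : ∀ {b : ℕ → W.H Q.X}, (∀ j, 2 * j ≤ i → IsPrimitiveIn (W.gr Q.X)
      (classOf W Q.X Q.D) Q.X.dim (i - 2 * j) (b j)) → ∀ j, 2 * j ≤ i →
      IsPrimitiveIn (W₀.gr Q₀.X) (classOf W₀ Q₀.X Q₀.D) Q₀.X.dim (i - 2 * j) (t (b j)) := by
    intro b hb j hj
    refine ⟨ht.mem' _ _ (hb j hj).1, ?_⟩
    rw [hξ, ht.dim_eq, ← map_pow, ← map_mul, (hb j hj).2, map_zero]
  have hsum : ∀ b : ℕ → W.H Q.X, t (lefSum (classOf W Q.X Q.D) i b) =
      lefSum (classOf W₀ Q₀.X Q₀.D) i (fun j => t (b j)) := by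
    intro b
    rw [lefSum, lefSum, map_sum, hξ]
    apply Finset.sum_congr rfl
    intro j _
    rw [map_mul, map_pow]
  refine ⟨fun j => t (a j), fun j => t (a' j), hprim ha, hprim ha', hsum a, hsum a', ?_⟩
  rw [hodgeSum, hodgeSum, map_sum, hξ, ht.dim_eq]
  apply Finset.sum_congr rfl
  intro j _
  have h1 : W₀.tr Q₀.X (t (a j) * t (a' j) * t (classOf W Q.X Q.D) ^ (Q.X.dim - i + 2 * j)) =
      σ (W.tr Q.X (a j * a' j * classOf W Q.X Q.D ^ (Q.X.dim - i + 2 * j))) := by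
    rw [← map_pow t, ← map_mul t, ← map_mul t, ht.tr_eq']
  rw [h1, map_mul σ, map_mul σ, map_mul σ, map_pow σ, map_neg σ, map_one σ, map_inv₀ σ,
    map_natCast σ, map_natCast σ]

/-- The lowering operator. -/
lemma exists_lefStr {X : 𝒱.Obj} {D : X.Cycles} (hD : X.IsCyc 1 D) (hHL : HardLefschetz W X D) :
    ∃ f, LefStr (W.isInternal X) X.dim (LinearMap.mulLeft W.K (W.cl X D)) f := by
  obtain ⟨f, t, -, -⟩ := exists_sl2 (W.isInternal X) (mulLeft_isHom (W := W) hD) W_hbd hHL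
  exact ⟨f, mulLeft_isHom (W := W) hD, W_hbd, hHL, t⟩

/-- The two forms of the inverses. -/
lemma invIn_iff {X : 𝒱.Obj} {D : X.Cycles} (hD : X.IsCyc 1 D) {i : ℕ} (hi : i ≤ X.dim) :
    InvIn W X D i ↔ ∃ z, Pool.Agent.W537.InvertsLefschetz W X D i z := by
  constructor
  · rintro ⟨θ, hθ, h1⟩
    obtain ⟨z, hz, rfl⟩ := hθ.cyc (p := i) (by rw [dim_prod]; push_cast [Nat.cast_sub hi]; ring)
    refine ⟨z, (Pool.Agent.W537.inverts_iff hD W hi).2 ⟨hz, fun a ha => ?_⟩⟩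
    exact h1 a (by rwa [show X.dim - (X.dim - i) = i by omega] at ha)
  · rintro ⟨z, hz⟩
    obtain ⟨hz1, h1⟩ := (Pool.Agent.W537.inverts_iff hD W hi).1 hz
    refine ⟨_, (HO.of_cyc hz1).cast (by rw [dim_prod]; push_cast [Nat.cast_sub hi]; ring),
      fun x hx => ?_⟩
    exact h1 x (by rwa [show X.dim - (X.dim - i) = i by omega])

/-- The star operator of a test variety. -/
lemma IsTestVariety.sd {i : ℕ} (h : IsTestVariety W i Q) : ∃ g, SD W Q.X Q.D g i := by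
  obtain ⟨g, t⟩ := exists_lefStr h.isCyc h.hard
  have hle := h.le
  obtain ⟨η, -, hη, -, -, -, h3⟩ := exists_star h.isCyc t h.le
    (fun j hj => (invIn_iff h.isCyc (by omega)).2 (h.low j hj))
  exact ⟨g, h.isCyc, t, h.le, Lc W Q.X Q.D (Q.X.dim - i) * η,
    ((Lc_ho h.isCyc _).mul hη).cast (by rw [Nat.cast_sub h.le]; ring),
    fun x hx => (h3 x hx).symm⟩

end Polarized

end Pool.Agent.H846.Bdeg
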