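import Pool.Agent.H846.Bdeg.Ops

/-!
# The lowering and the star operator in a low degree are algebraic
-/

open CategoryTheory AlgebraicGeometry Finset

universe u v

namespace Pool.Agent.H846.Bdeg

open Pool.Agent.H914 Pool.Agent.H914.VarClass Pool.Agent.H914.VarClass.Obj
  Pool.Agent.H914.WeilCohomology Pool.Agent.H281R3.HT Pool.Agent.W552 Pool.Agent.W539.Ker
  Pool.Agent.R911.Iso Pool.Agent.H447 Pool.Agent.H846.Det Pool.Agent.H846.Plc
  Pool.Agent.H846.Hdt

variable {k : Type u} [Field k] {𝒱 : VarClass k} {ops : CycleOps 𝒱}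
  {W : WeilCohomology.{u, v} ops} {X : 𝒱.Obj} {D : X.Cycles} {f : Module.End W.K (W.H X)}

/-- The inverse of `ξ ^ (n - i)` on the cohomology of degree `i` is algebraic. -/
def InvIn (W : WeilCohomology.{u, v} ops) (X : 𝒱.Obj) (D : X.Cycles) (i : ℕ) : Prop :=
  ∃ θ : Module.End W.K (W.H X), HO W X X (-(2 * (X.dim - i : ℕ))) θ ∧
    ∀ x ∈ W.gr X i, θ (Lc W X D (X.dim - i) x) = x

section Low

variable (hD : X.IsCyc 1 D)
  (t : LefStr (W.isInternal X) X.dim (LinearMap.mulLeft W.K (W.cl X D)) f)

include hD t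

lemma f_zero {i : ℕ} (hi : i < 2) (hn : i ≤ X.dim) {x : W.H X} (hx : x ∈ W.gr X i) : f x = 0 := by
  refine (t.low hn hx ?_).1
  have h1 := Lc_mem hD hx (X.dim - i + 1)
  rw [W.gr_eq_bot X _ (by omega)] at h1
  exact (Submodule.mem_bot _).1 h1

/-- The lowering operator is algebraic in a low degree. -/
theorem exists_f : ∀ i ≤ X.dim, (∀ j, j + 2 ≤ i → InvIn W X D j) →
    ∃ g : Module.End W.K (W.H X), HO W X X (-2) g ∧ ∀ x ∈ W.gr X i, g x = f x := by
  intro i
  induction i using Nat.strong_induction_on with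
  | _ i ih =>
    intro hi hinv
    by_cases h2 : i < 2
    · exact ⟨0, HO.zero, fun x hx => (f_zero hD t h2 hi hx).symm⟩
    push Not at h2
    obtain ⟨g, hg, hgf⟩ := ih (i - 2) (by omega) (by omega) (fun j hj => hinv j (by omega))
    obtain ⟨θ, hθ, hθ1⟩ := hinv (i - 2) (by omega)
    set c := X.dim - i + 1 with hc
    have hc2 : X.dim - (i - 2) = c + 1 := by omega
    rw [hc2] at hθ hθ1
    set q : ℚ := (X.dim : ℚ) - i + 2 with hq
    refine ⟨(Lc W X D 1 * g + (q : W.K) • 1) * (θ * Lc W X D c), ?_, fun x hx => ?_⟩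
    · have h1 : HO W X X 0 (Lc W X D 1 * g + (q : W.K) • 1) :=
        (((Lc_ho hD 1).mul hg).cast (by norm_num)).add (HO.one.smul q)
      exact (h1.mul (hθ.mul (Lc_ho hD c))).cast (by push_cast; ring)
    · set y := θ (Lc W X D c x) with hy
      have hym : y ∈ W.gr X (i - 2) := by
        apply hθ.mem (Lc_mem hD hx c)
        push_cast [Nat.cast_sub h2]
        rw [hc]
        push_cast [Nat.cast_sub hi]
        ring
      -- `ξ ^ (c + 1) y = ξ ^ c x`
      have h1 : Lc W X D (c + 1) y = Lc W X D c x := by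
        have h3 := Lc_mem hD hx c
        rw [show i + 2 * c = 2 * X.dim - (i - 2) by omega] at h3
        obtain ⟨b, hb, hb'⟩ := (t.hHL (i - 2) (by omega)).2 _ h3
        rw [hc2] at hb'
        have h4 : Lc W X D (c + 1) b = Lc W X D c x := hb'
        rw [hy, ← h4, hθ1 b hb]
      have h2' : f (x - Lc W X D 1 y) = 0 := by
        refine (t.low hi (Submodule.sub_mem _ hx ?_) ?_).1
        · have := Lc_mem hD hym 1
          rwa [show i - 2 + 2 * 1 = i by omega] at this
        · rw [map_sub, sub_eq_zero]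
          change Lc W X D c x = Lc W X D c (Lc W X D 1 y)
          rw [← Module.End.mul_apply, ← Lc_add, h1]
      rw [map_sub, sub_eq_zero] at h2'
      rw [h2', Module.End.mul_apply, Module.End.mul_apply, ← hy, LinearMap.add_apply,
        Module.End.mul_apply, LinearMap.smul_apply, Module.End.one_apply, hgf y hym]
      have h3 := congrArg (fun F => F y) t.sl2.ef
      simp only [LinearMap.sub_apply, Module.End.mul_apply] at h3
      rw [Fr.wt_gr hym, sub_eq_iff_eq_add] at h3
      rw [Lc_one]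
      rw [h3, hq]
      push_cast [Nat.cast_sub h2]
      module

end Low

end Pool.Agent.H846.Bdeg
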