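import Pool.Agent.H846.Bdeg.Detect

/-!
# The Lefschetz standard conjecture from single classes
-/

open CategoryTheory AlgebraicGeometry Finset

universe u v

namespace Pool.Agent.H846.Bdeg

open Pool.Agent.H914 Pool.Agent.H914.VarClass Pool.Agent.H914.VarClass.Obj
  Pool.Agent.H914.WeilCohomology Pool.Agent.H281R3.HT Pool.Agent.W552 Pool.Agent.W539.Ker
  Pool.Agent.R911.Iso Pool.Agent.H447 Pool.Agent.H846.Det Pool.Agent.H846.Plc
  Pool.Agent.H846.Hdt Pool.Agent.H846.Deg2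

variable {k : Type u} [Field k] {𝒱 : VarClass k} {ops : CycleOps 𝒱}
  {W : WeilCohomology.{u, v} ops} {P : Polarized 𝒱}

lemma nonisotropic {Q : Polarized 𝒱} (hE : Q.X.IsCyc 1 Q.D) {i : ℕ} (hiP : i ≤ P.X.dim)
    (hiQ : i ≤ Q.X.dim) {z : (P.X.prod Q.X).Cycles} (h : IsDetectedSomehow W P Q i z) :
    HasNonisotropicImageIn W P Q i z := by
  rcases h with h | ⟨k₀, _, 𝒱₀, ops₀, W₀, P₀, Q₀, Z, S, hQ₀, hZ, h⟩ | ⟨rfl, h⟩
  · exact h
  · exact nonisotropic_of_detectedAt S hE hiP hiQ hQ₀ hZ h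
  · exact nonisotropic_two hiP hiQ hE h

/-- The images of the operators are not isotropic. -/
lemma nonIso {Q : Polarized 𝒱} {g : Module.End W.K (W.H Q.X)} {i : ℕ} (hiP : i ≤ P.X.dim)
    (h : SD W Q.X Q.D g i)
    (hdet : ∀ z : (P.X.prod Q.X).Cycles, (P.X.prod Q.X).IsCyc i z →
      ActsNontriviallyIn W P Q i z → IsDetectedSomehow W P Q i z) :
    NonIso W P.X Q.X Q.D g i := by
  intro u hu hact
  obtain ⟨z, hz, rfl⟩ := hu.cyc (p := i) (by rw [dim_prod]; push_cast; ring)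
  obtain ⟨y, hy, hne⟩ := hact
  obtain ⟨y₁, y₂, c, hy₁, hy₂, hc, hc0⟩ :=
    nonisotropic h.hD hiP h.le (hdet z hz ⟨y, hy, hne⟩)
  refine ⟨y₁, hy₁, y₂, hy₂, ?_⟩
  change bf W Q.X Q.D g (corrMap W z y₁) (corrMap W z y₂) ≠ 0
  rw [bf_of_value h.hD h.ls h.le hc]
  exact mul_ne_zero (sg_ne i) hc0

/-- The inductive step. -/
theorem step {i : ℕ} (hi : i ≤ P.X.dim) (hD : P.X.IsCyc 1 P.D) (hL : HardLefschetz W P.X P.D)
    (hinv : ∀ j < i, InvIn W P.X P.D j) {𝒴 : Polarized 𝒱 → Prop} (h𝒴 : IsTestClassIn W P i 𝒴)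
    (hne : NonzeroAtEachClassIn W P i 𝒴) : InvIn W P.X P.D i := by
  obtain ⟨f, t⟩ := exists_lefStr hD hL
  obtain ⟨A, hA⟩ := exists_outer hD t i hi hinv
  obtain ⟨η, -, hη, -, -, -, h3⟩ := exists_star hD t hi (fun j hj => hinv j (by omega))
  have hP : SD W P.X P.D f i := ⟨hD, t, hi, Lc W P.X P.D (P.X.dim - i) * η,
    ((Lc_ho hD _).mul hη).cast (by rw [Nat.cast_sub hi]; ring), fun x hx => (h3 x hx).symm⟩
  have hPP : NonIso W P.X P.X P.D f i := nonIso hi hP (h𝒴.detected P (Or.inl rfl))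
  refine invIn_of_nonzero hD t hi (fun j hj => hinv j (by omega)) (ratTr hP hA) hPP ?_
  intro y hy hy0
  obtain ⟨Q, hQ, z, hz, hzy⟩ := hne y hy hy0
  have hz' : HO W P.X Q.X (2 * i - P.X.dim - Q.X.dim) (W.corr (W.cl _ z)) :=
    (HO.of_cyc hz).cast (by rw [dim_prod]; push_cast; ring)
  rcases hQ with rfl | hQ
  · exact ⟨_, _, f, hP, hPP, _, hz', hzy⟩
  · obtain ⟨g, hg⟩ := (h𝒴.test Q hQ).sd
    exact ⟨Q.X, Q.D, g, hg, nonIso hi hg (h𝒴.detected Q (Or.inr hQ)), _, hz', hzy⟩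

/-- **All degrees.** -/
theorem all_degrees (hD : P.X.IsCyc 1 P.D) (hL : HardLefschetz W P.X P.D)
    {𝒴 : ℕ → Polarized 𝒱 → Prop}
    (h : ∀ i < P.X.dim, (∃ z, Pool.Agent.W537.InvertsLefschetz W P.X P.D i z) ∨
      IsTestClassIn W P i (𝒴 i) ∧ NonzeroAtEachClassIn W P i (𝒴 i)) :
    ∀ i < P.X.dim, InvIn W P.X P.D i := by
  intro i
  induction i using Nat.strong_induction_on with
  | _ i ih =>
    intro hi
    rcases h i hi with h1 | ⟨h1, h2⟩
    · exact (invIn_iff hD hi.le).2 h1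
    · exact step hi.le hD hL (fun j hj => ih j hj (by omega)) h1 h2

/-- The conjecture B from the inverses. -/
theorem lefschetzB_of_invIn (hD : P.X.IsCyc 1 P.D) (hL : HardLefschetz W P.X P.D)
    (h : ∀ i < P.X.dim, InvIn W P.X P.D i) : LefschetzB W P.X P.D := by
  apply lefschetzB_of_inj hD hL
  intro c hc
  rcases Nat.eq_zero_or_pos c with rfl | h0
  · refine ⟨1, ?_, fun a _ h0 => h0⟩
    rw [← mem_KS_iff]
    exact rop_opAlg.kspan.cast rop_opAlg.kspan.one (by simp)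
  · obtain ⟨θ, hθ, h1⟩ := h (P.X.dim - c) (by omega)
    obtain ⟨z, hz, rfl⟩ := hθ.cyc (p := P.X.dim - c) (by
      rw [dim_prod]
      push_cast [Nat.cast_sub hc, show P.X.dim - (P.X.dim - c) = c by omega]
      ring)
    refine ⟨_, KOp.gen (p := P.X.dim - c) (by push_cast [Nat.cast_sub hc]; ring) hz, ?_⟩
    intro a ha h2
    obtain ⟨b, hb, hb'⟩ := (hL (P.X.dim - c) (by omega)).2 a
      (by rwa [show 2 * P.X.dim - (P.X.dim - c) = P.X.dim + c by omega])
    have h3 := h1 b hb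
    have h4 : Lc W P.X P.D (P.X.dim - (P.X.dim - c)) b = a := hb'
    rw [h4] at h3
    have h5 : b = 0 := by rw [← h3]; exact h2
    rw [← h4, h5, map_zero]

/-- The conjecture B implies that all classes are moved by cycles. -/
theorem nonzero_of_lefschetzB (hD : P.X.IsCyc 1 P.D) (hL : HardLefschetz W P.X P.D)
    (hB : LefschetzB W P.X P.D) {i : ℕ} (hi : i ≤ P.X.dim) (𝒴 : Polarized 𝒱 → Prop) :
    NonzeroAtEachClassIn W P i 𝒴 := by
  intro y hy hy0
  obtain ⟨ν, hν, hinj⟩ := inj_of_lefschetzB hD hL hB (P.X.dim - i) (by omega)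
  have h1 : ν y ≠ 0 := by
    intro h0
    apply hy0
    apply hinj y _ h0
    rwa [show P.X.dim + (P.X.dim - i) = 2 * P.X.dim - i by omega]
  refine ⟨P, Or.inl rfl, ?_⟩
  by_contra hno
  push Not at hno
  apply h1
  obtain ⟨γ, hγ, rfl⟩ := mem_KOp_iff.1 hν
  have e : (P.X.dim : ℤ) + -((P.X.dim - i : ℕ) : ℤ) = i := by
    push_cast [hi]
    ring
  rw [e] at hγ
  have key : ∀ γ ∈ spanCycles W (P.X.prod P.X) (i : ℤ), W.corr γ y = 0 := by
    intro γ hγ
    induction hγ using Submodule.span_induction with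
    | mem x hx =>
      obtain ⟨p, hp, z, hz, rfl⟩ := hx
      obtain rfl : p = i := by exact_mod_cast hp
      exact hno z hz
    | zero => rw [corr_zero, LinearMap.zero_apply]
    | add x x' _ _ hx hx' => rw [corr_add, LinearMap.add_apply, hx, hx', add_zero]
    | smul a x _ hx => rw [corr_smul, LinearMap.smul_apply, hx, smul_zero]
  exact key γ hγ

/-- **The conjecture B from single classes.** -/
theorem lefschetzB_tfae' (hD : P.X.IsCyc 1 P.D) (hL : HardLefschetz W P.X P.D)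
    {𝒴 : ℕ → Polarized 𝒱 → Prop}
    (h : ∀ i < P.X.dim, IsKnownOrDetected W P i (𝒴 i)) :
    List.TFAE [LefschetzB W P.X P.D,
      ∀ i < P.X.dim, NonzeroAtEachClassIn W P i (fun _ => False),
      ∀ i < P.X.dim, NonzeroAtEachClassIn W P i (𝒴 i)] := by
  tfae_have 1 → 2 := fun hB i hi => nonzero_of_lefschetzB hD hL hB hi.le _
  tfae_have 2 → 3 := by
    intro h1 i hi y hy hy0
    obtain ⟨Q, hQ | hQ, hz⟩ := h1 i hi y hy hy0
    · exact ⟨Q, Or.inl hQ, hz⟩
    · exact hQ.elim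
  tfae_have 3 → 1 := by
    intro h1
    refine lefschetzB_of_invIn hD hL (all_degrees hD hL (𝒴 := 𝒴) fun i hi => ?_)
    rcases h i hi with h2 | h2
    · exact Or.inl h2
    · exact Or.inr ⟨h2, h1 i hi⟩
  tfae_finish

end Pool.Agent.H846.Bdeg
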