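import Pool.Agent.H846.Bdeg.OneDefs
import Pool.Agent.H846.Bdeg.Main
import Pool.Agent.H846.Hdt.Square
import Pool.Agent.H846.Swp.Main
import Pool.Agent.H846.Alt.Main

/-!
# Transcendental classes reached by curves at places
-/

open CategoryTheory AlgebraicGeometry Finset

universe u v

namespace Pool.Agent.H846.Bdeg

open Pool.Agent.H914 Pool.Agent.H914.VarClass Pool.Agent.H914.VarClass.Obj
  Pool.Agent.H914.WeilCohomology Pool.Agent.H281R3.HT Pool.Agent.W552 Pool.Agent.W539.Ker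
  Pool.Agent.R911.Iso Pool.Agent.H447 Pool.Agent.H846.Det Pool.Agent.H846.Plc
  Pool.Agent.H846.Hdt Pool.Agent.H846.Deg2

variable {k : Type u} [Field k] {𝒱 : VarClass k} {ops : CycleOps 𝒱}
  {W : WeilCohomology.{u, v} ops} {P : Polarized 𝒱} {𝒴 : Polarized 𝒱 → Prop}

/-- The bilinear form `tr(x y D ^ (n - 2))`. -/
noncomputable def frm (W : WeilCohomology.{u, v} ops) (X : 𝒱.Obj) (D : X.Cycles) :
    W.H X →ₗ[W.K] W.H X →ₗ[W.K] W.K :=
  LinearMap.mk₂ W.K (fun x y => W.tr X (x * y * W.cl X D ^ (X.dim - 2)))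
    (fun a b c => by rw [add_mul, add_mul, map_add])
    (fun r a b => by rw [smul_mul_assoc, smul_mul_assoc, map_smul])
    (fun a b c => by rw [mul_add, add_mul, map_add])
    (fun r a b => by rw [mul_smul_comm, smul_mul_assoc, map_smul])

lemma frm_apply (X : 𝒱.Obj) (D : X.Cycles) (x y : W.H X) :
    frm W X D x y = W.tr X (x * y * W.cl X D ^ (X.dim - 2)) := rfl

/-- The form is nondegenerate on the span of the divisor classes. -/
lemma frm_nondeg (hD : P.X.IsCyc 1 P.D) (hn : 2 ≤ P.X.dim) (hH : HomHodgeUpTo W P 1)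
    {a : W.H P.X} (ha : a ∈ Submodule.span W.K (algClasses W P.X 1))
    (h : ∀ b ∈ algClasses W P.X 1, frm W P.X P.D a b = 0) : a = 0 := by
  refine span_nondeg (frm W P.X P.D) (algClasses W P.X 1) (algClasses W P.X 1) (alg_zero 1)
    (fun a ha b hb => alg_add ha hb) (fun q a ha => alg_smul q ha) ?_ ?_ a ha h
  · intro a ha b hb
    exact (((AS.of ha).mul (AS.of hb)).mul (as_pow (W := W) hD (P.X.dim - 2))).tr
  · intro c hc h0
    by_contra hc0
    obtain ⟨q, hq, hq'⟩ := form2_pos hn hD hH hc hc0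
    have hξ : W.cl P.X P.D ∈ algClasses W P.X 1 := ⟨P.D, hD, rfl⟩
    have h1 := h0 _ hξ
    have h2 := h0 _ hc
    rw [frm_apply] at h1 h2
    rw [form2_eq, h2, mul_zero, sub_zero] at hq'
    have h3 : W.tr P.X (c * W.cl P.X P.D ^ (P.X.dim - 1)) = 0 := by
      rw [← h1, mul_assoc, ← pow_succ', show P.X.dim - 2 + 1 = P.X.dim - 1 by omega]
    rw [h3, mul_zero] at hq'
    exact hq.ne (by exact_mod_cast hq')

/-- **The decomposition of `H^(2n - 2)(X)`.** -/
lemma exists_decomp (hD : P.X.IsCyc 1 P.D) (hL : HardLefschetz W P.X P.D) (hn : 2 ≤ P.X.dim)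
    (hH : HomHodgeUpTo W P 1) {y : W.H P.X} (hy : InDegree W P.X (2 * P.X.dim - 2) y) :
    ∃ a τ, InDivisorSpan W P a ∧ IsTranscendental W P τ ∧ y = a + τ := by
  obtain ⟨x, hx, hxy⟩ := (hL 2 hn).2 y hy
  set N := Submodule.span W.K (algClasses W P.X 1) with hN
  let φ : N →ₗ[W.K] Module.Dual W.K N :=
    (LinearMap.lcomp W.K W.K N.subtype).comp ((frm W P.X P.D).comp N.subtype)
  have hφ : ∀ a b : N, φ a b = frm W P.X P.D a b := fun _ _ => rfl
  have hinj : Function.Injective φ := by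
    rw [injective_iff_map_eq_zero]
    intro a ha
    apply Subtype.ext
    refine frm_nondeg hD hn hH a.2 ?_
    intro b hb
    have h1 := hφ a ⟨b, Submodule.subset_span hb⟩
    rw [ha] at h1
    exact h1.symm
  have hsurj : Function.Surjective φ :=
    (LinearMap.injective_iff_surjective_of_finrank_eq_finrank
      (Subspace.dual_finrank_eq (K := W.K) (V := N)).symm).1 hinj
  obtain ⟨a, ha⟩ := hsurj ((frm W P.X P.D x).comp N.subtype)
  have hax : ∀ b ∈ algClasses W P.X 1, frm W P.X P.D (x - a) b = 0 := by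
    intro b hb
    have h1 := congrArg (fun F => F ⟨b, Submodule.subset_span hb⟩) ha
    beta_reduce at h1
    rw [hφ] at h1
    rw [map_sub, LinearMap.sub_apply, h1]
    exact sub_self _
  have hpow : ∀ v, powMul W P.X P.D (P.X.dim - 2) v = W.cl P.X P.D ^ (P.X.dim - 2) * v :=
    fun _ => rfl
  have hxy' : W.cl P.X P.D ^ (P.X.dim - 2) * x = y := by
    rwa [LinearMap.pow_mulLeft, LinearMap.mulLeft_apply] at hxy
  have hN2 : N ≤ W.gr P.X 2 := by
    rw [hN, Submodule.span_le]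
    intro b hb
    exact alg_gr hb
  have ha2 : (a : W.H P.X) ∈ W.gr P.X 2 := hN2 a.2
  have hmem : ∀ v ∈ W.gr P.X 2, powMul W P.X P.D (P.X.dim - 2) v ∈
      W.gr P.X (2 * P.X.dim - 2) := by
    intro v hv
    have h1 := W.mul_mem (pow_mem hD (P.X.dim - 2)) hv
    rwa [show 2 * (P.X.dim - 2) + 2 = 2 * P.X.dim - 2 by omega] at h1
  refine ⟨powMul W P.X P.D (P.X.dim - 2) a, powMul W P.X P.D (P.X.dim - 2) (x - a), ?_, ⟨?_, ?_⟩,
    ?_⟩
  · have key : ∀ v ∈ N, InDivisorSpan W P (powMul W P.X P.D (P.X.dim - 2) v) := by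
      intro v hv
      refine Submodule.span_induction
        (p := fun v _ => InDivisorSpan W P (powMul W P.X P.D (P.X.dim - 2) v)) ?_ ?_ ?_ ?_ hv
      · rintro _ ⟨w, hw, rfl⟩
        exact Submodule.subset_span ⟨w, hw, rfl⟩
      · rw [hpow, mul_zero]
        exact Submodule.zero_mem _
      · intro u v _ _ hu hv
        rw [hpow, mul_add]
        exact Submodule.add_mem _ hu hv
      · intro c v _ hv
        rw [hpow, mul_smul_comm]
        exact Submodule.smul_mem _ _ hv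
    exact key a a.2
  · exact hmem _ (Submodule.sub_mem _ hx ha2)
  · intro w hw
    have h1 := hax _ ⟨w, hw, rfl⟩
    rw [frm_apply] at h1
    rw [hpow, mul_assoc, pow_comm hD, classOf]
    exact h1
  · rw [hpow, hpow, ← mul_add, add_sub_cancel, hxy']

/-- The common kernel of cycles on the transcendental part. -/
noncomputable def kerSub (W : WeilCohomology.{u, v} ops) (P : Polarized 𝒱)
    (𝒵 : Set (Σ Q : Polarized 𝒱, (P.X.prod Q.X).Cycles)) : Submodule W.K (W.H P.X) :=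
  { carrier := {x | IsTranscendental W P x ∧ ∀ s ∈ 𝒵, corrMap W s.2 x = 0}
    zero_mem' := by
      refine ⟨⟨Submodule.zero_mem _, fun w _ => by rw [zero_mul, map_zero]⟩, fun s _ => ?_⟩
      exact map_zero _
    add_mem' := by
      rintro a b ⟨⟨ha1, ha2⟩, ha3⟩ ⟨⟨hb1, hb2⟩, hb3⟩
      refine ⟨⟨Submodule.add_mem _ ha1 hb1, fun w hw => by
        rw [add_mul, map_add, ha2 w hw, hb2 w hw, add_zero]⟩, fun s hs => ?_⟩
      rw [corrMap, map_add]
      have h1 := ha3 s hs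
      have h2 := hb3 s hs
      rw [corrMap] at h1 h2
      rw [h1, h2, add_zero]
    smul_mem' := by
      rintro c a ⟨⟨ha1, ha2⟩, ha3⟩
      refine ⟨⟨Submodule.smul_mem _ _ ha1, fun w hw => by
        rw [smul_mul_assoc, map_smul, ha2 w hw, smul_zero]⟩, fun s hs => ?_⟩
      rw [corrMap, map_smul]
      have h1 := ha3 s hs
      rw [corrMap] at h1
      rw [h1, smul_zero] }

lemma kerSub_stable {𝒵 : Set (Σ Q : Polarized 𝒱, (P.X.prod Q.X).Cycles)}
    (h𝒵 : ∀ s ∈ 𝒵, (s.1 = P ∨ 𝒴 s.1) ∧ (P.X.prod s.1.X).IsCyc 2 s.2) :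
    ∀ φ, IsSymmetryMap W P 𝒴 φ → ∀ y ∈ kerSub W P 𝒵, φ y ∈ kerSub W P 𝒵 := by
  rintro _ ⟨g, hg, rfl⟩ x ⟨⟨hx1, hx2⟩, hx3⟩
  obtain ⟨σ, hσ⟩ := hg.comp
  refine ⟨⟨hσ.map.mem _ _ hx1, fun w hw => ?_⟩, fun s hs => ?_⟩
  · have h2 := hσ.map.tr_eq (x * classOf W P.X w)
    rw [hx2 w hw, map_zero, map_mul] at h2
    have h3 := hg.fix w hw
    rw [isoMap] at h3
    rw [h3] at h2
    exact h2
  · obtain ⟨h, hh⟩ := hg.ext s.1 (h𝒵 s hs).1
    have h2 := hh s.2 (h𝒵 s hs).2 x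
    rw [← h2, hx3 s hs]
    exact map_zero h

/-- **Cycles which act nontrivially are detected by curves.** -/
theorem detected_of_jumps (hD : P.X.IsCyc 1 P.D) (hL : HardLefschetz W P.X P.D)
    (hn : 2 ≤ P.X.dim) (hH : HomHodgeUpTo W P 1)
    {Q : Polarized 𝒱} (hQ : Q = P ∨ 𝒴 Q) (hQD : Q.X.IsCyc 1 Q.D) (hQH : HomHodgeUpTo W Q 1)
    (hj : HasJumps W P Q 𝒴) {z : (P.X.prod Q.X).Cycles} (hz : (P.X.prod Q.X).IsCyc 2 z)
    (hact : ActsNontrivially W P Q z) : IsDetectedByCurve W P Q z := by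
  by_cases hA : ∃ w, P.X.IsCyc 1 w ∧
      corrMap W z (powMul W P.X P.D (P.X.dim - 2) (classOf W P.X w)) ≠ 0
  · obtain ⟨w, hw, hne⟩ := hA
    refine ⟨k, _, 𝒱, ops, W, P, Q, trivialPlace hD hQD, hQH, z, divPow ops P.D (P.X.dim - 2) w, hz,
      fun _ _ => rfl, ?_, ?_⟩
    · have h1 := divPow_mem (ops := ops) hD (P.X.dim - 2) hw
      rwa [show 1 + (P.X.dim - 2) = P.X.dim - 1 by omega] at h1
    · intro h0
      apply hne
      rw [classOf, cl_divPow, LinearMap.pow_mulLeft, LinearMap.mulLeft_apply] at h0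
      exact h0
  push Not at hA
  have hspan : ∀ a, InDivisorSpan W P a → corrMap W z a = 0 := by
    intro a ha
    refine Submodule.span_induction (p := fun a _ => corrMap W z a = 0) ?_ ?_ ?_ ?_ ha
    · rintro _ ⟨w, hw, rfl⟩
      exact hA w hw
    · exact map_zero _
    · intro u v _ _ hu hv
      rw [corrMap] at hu hv
      rw [corrMap, map_add, hu, hv, add_zero]
    · intro c v _ hv
      rw [corrMap] at hv
      rw [corrMap, map_smul, hv, smul_zero]
  have hdec : ∀ y, InDegree W P.X (2 * P.X.dim - 2) y →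
      ∃ a τ, InDivisorSpan W P a ∧ IsTranscendental W P τ ∧ y = a + τ :=
    fun y hy => exists_decomp hD hL hn hH hy
  have hadd : ∀ a τ, InDivisorSpan W P a → corrMap W z (a + τ) = corrMap W z τ := by
    intro a τ ha
    have h1 := hspan a ha
    rw [corrMap] at h1
    rw [corrMap, map_add, h1, zero_add]
    rfl
  have hmemU : ∀ x, x ∈ kerSub W P {⟨Q, z⟩} ↔ IsTranscendental W P x ∧ corrMap W z x = 0 := by
    intro x
    constructor
    · rintro ⟨h1, h2⟩
      exact ⟨h1, h2 ⟨Q, z⟩ rfl⟩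
    · rintro ⟨h1, h2⟩
      refine ⟨h1, ?_⟩
      rintro _ rfl
      exact h2
  rcases hj (kerSub W P {⟨Q, z⟩}) (fun y hy => hy.1) (kerSub_stable (by
      rintro _ rfl
      exact ⟨hQ, hz⟩)) with e | ⟨x, hx, hxU⟩
  · exfalso
    obtain ⟨y, hy, hne⟩ := hact
    obtain ⟨a, τ, ha, hτ, rfl⟩ := hdec y hy
    rw [hadd a τ ha] at hne
    exact hne ((hmemU τ).1 (e τ hτ)).2
  obtain ⟨k₀, _, 𝒱₀, ops₀, W₀, P₀, Q₀, S, hH₀, hspec, c, hc, hxc⟩ := hx
  obtain ⟨z₀, hz₀, hzz⟩ := hspec z hz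
  have hdP := S.fst.dim_eq
  have hxm : InDegree W P.X (2 * P.X.dim - 2) x := by
    have h1 := W₀.cl_mem hc
    rw [show 2 * (P₀.X.dim - 1) = 2 * P.X.dim - 2 by omega] at h1
    have h2 := symm_mem S.fst h1
    have h3 : S.s.symm (W₀.cl P₀.X c) = x := by
      apply S.s.injective
      rw [S.s.apply_symm_apply]
      exact hxc.symm
    rw [h3] at h2
    exact h2
  refine ⟨k₀, _, 𝒱₀, ops₀, W₀, P₀, Q₀, S, hH₀, z₀, c, hz₀, hzz, hc, ?_⟩
  obtain ⟨b, t, hb, ht, rfl⟩ := hdec x hxm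
  have ht0 : corrMap W z t ≠ 0 := by
    intro h0
    apply hxU
    exact Submodule.add_mem_sup hb ((hmemU t).2 ⟨ht, h0⟩)
  rw [← hxc, ← hzz _ hxm, hadd b t hb]
  intro h0
  apply ht0
  have h3 : S.t (corrMap W z t) = S.t 0 := by
    rw [map_zero]
    exact h0
  exact S.t.injective h3

/-- The product of two divisors as a correspondence. -/
lemma corr_divisors {w w' : P.X.Cycles} (hw : P.X.IsCyc 1 w) (hw' : P.X.IsCyc 1 w')
    {y : W.H P.X} (hy : InDegree W P.X (2 * P.X.dim - 2) y) :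
    ∃ z, (P.X.prod P.X).IsCyc 2 z ∧
      corrMap W z y = W.tr P.X (y * classOf W P.X w) • classOf W P.X w' := by
  refine ⟨ops.mul (ops.pull (fst P.X P.X) w) (ops.pull (snd P.X P.X) w'),
    ops.mul_mem (ops.pull_mem _ hw) (ops.pull_mem _ hw'), ?_⟩
  rw [corrMap, classOf, W.cl_mul, W.cl_pull, W.cl_pull,
    Swp.corr_tmul (W.cl P.X w) (W.cl_mem hw') hy]
  have h1 : (-1 : W.K) ^ (2 * 1 * (2 * P.X.dim - 2)) = 1 := by
    rw [mul_one, pow_mul]
    norm_num
  rw [h1, one_mul, classOf, classOf, W.comm (W.cl_mem hw) hy, show 2 * 1 * (2 * P.X.dim - 2) =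
    2 * (2 * P.X.dim - 2) by ring, pow_mul]
  norm_num

/-- Nonzero values at all classes. -/
theorem nonzero_of_act (hD : P.X.IsCyc 1 P.D) (hL : HardLefschetz W P.X P.D)
    (hn : 3 ≤ P.X.dim) (h : CyclesAct W P 𝒴 𝒴) : NonzeroAtEachClassIn W P 2 𝒴 := by
  intro y hy hy0
  by_contra hno
  push Not at hno
  have hξ : classOf W P.X P.D ≠ 0 := by
    intro h0
    apply hy0
    obtain ⟨x, hx, hxy⟩ := (hL 2 (by omega)).2 y hy
    rw [classOf] at h0
    rw [← hxy, LinearMap.pow_mulLeft, LinearMap.mulLeft_apply, h0, zero_pow (by omega), zero_mul]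
  have hyT : IsTranscendental W P y := by
    refine ⟨hy, fun w hw => ?_⟩
    obtain ⟨z, hz, hzy⟩ := corr_divisors hw hD hy
    rw [hno P (Or.inl rfl) z hz] at hzy
    exact (smul_eq_zero.1 hzy.symm).resolve_right hξ
  set 𝒵 : Set (Σ Q : Polarized 𝒱, (P.X.prod Q.X).Cycles) :=
    {s | (s.1 = P ∨ 𝒴 s.1) ∧ (P.X.prod s.1.X).IsCyc 2 s.2} with h𝒵
  have hyU : y ∈ kerSub W P 𝒵 := ⟨hyT, fun s hs => hno s.1 hs.1 s.2 hs.2⟩
  rcases h (kerSub W P 𝒵) (fun y hy => hy.1) (kerSub_stable fun s hs => hs) with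
    e | ⟨x, hx, hne⟩
  · exact hy0 (e y hyU)
  · obtain ⟨Q, hQ, z, hz, hne⟩ := hne
    exact hne (hx.2 ⟨Q, z⟩ ⟨hQ, hz⟩)

/-- The two forms of the inverses. -/
lemma invIn_of {Q : Polarized 𝒱} {i : ℕ} (hi : i ≤ Q.X.dim) (h : InvertsIn W Q i) :
    InvIn W Q.X Q.D i := by
  obtain ⟨z, hz, h1⟩ := h
  refine ⟨_, (HO.of_cyc hz).cast (by rw [dim_prod]; push_cast [Nat.cast_sub hi]; ring),
    fun x hx => ?_⟩
  rw [Lc_apply]
  exact h1 x hx

/-- Good varieties are test varieties. -/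
lemma IsGood.test {Q : Polarized 𝒱} (h : IsGood W Q) : IsTestVariety W 2 Q where
  isCyc := h.isCyc
  hard := h.hard
  le := h.two_le
  low := fun j hj => by
    obtain rfl : j = 0 := by omega
    exact (invIn_iff h.isCyc (Nat.zero_le _)).1 (invIn_of (Nat.zero_le _) h.zero)

/-- **Transcendental classes reached by curves at places.** -/
theorem lefschetzB_tfae_one (hD : P.X.IsCyc 1 P.D) (hL : HardLefschetz W P.X P.D)
    (hn : 3 ≤ P.X.dim) (h : EnoughJumps W P 𝒴) :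
    List.TFAE [LefschetzB W P.X P.D, CyclesAct W P 𝒴 (fun _ => False), CyclesAct W P 𝒴 𝒴] := by
  tfae_have 1 → 2 := by
    intro hB U hU _
    by_cases h0 : ∀ y ∈ U, y = 0
    · exact Or.inl h0
    · push Not at h0
      obtain ⟨y, hy, hy0⟩ := h0
      exact Or.inr ⟨y, hy, nonzero_of_lefschetzB hD hL hB (i := 2) (by omega)
        (fun _ => False) y (hU y hy).1 hy0⟩
  tfae_have 2 → 3 := by
    intro h2 U hU hst
    rcases h2 U hU hst with h0 | ⟨y, hy, Q, hQ, z, hz, hne⟩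
    · exact Or.inl h0
    · rcases hQ with hQ | hQ
      · exact Or.inr ⟨y, hy, Q, Or.inl hQ, z, hz, hne⟩
      · exact hQ.elim
  tfae_have 3 → 1 := by
    intro h3
    refine lefschetzB_of_invIn hD hL (all_degrees hD hL (𝒴 := fun _ => 𝒴) fun i hi => ?_)
    by_cases hi2 : i = 2
    · subst hi2
      refine Or.inr ⟨⟨fun Q hQ => (h.good Q (Or.inr hQ)).test, fun Q hQ z hz hact => ?_⟩,
        nonzero_of_act hD hL hn h3⟩
      refine Or.inr (Or.inr ⟨rfl, ?_⟩)
      exact detected_of_jumps hD hL (by omega) (h.good P (Or.inl rfl)).index hQ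
        (h.good Q hQ).isCyc (h.good Q hQ).index (h.jumps Q hQ) hz hact
    · exact Or.inl ((invIn_iff hD hi.le).1 (invIn_of hi.le (h.inverse i hi hi2)))
  tfae_finish

/-- The conjecture B and one cycle for all theories. -/
theorem oneCycle_iff (hD : P.X.IsCyc 1 P.D) (hL : HardLefschetz W P.X P.D) (hn : 1 ≤ P.X.dim) :
    LefschetzB W P.X P.D ↔ OneCycleForTheories W P := by
  constructor
  · intro hB
    obtain ⟨Z, hZ, hW⟩ := indep_weil hn P.D hD W hL hB
    exact ⟨Z, hZ, fun W' hb => ((hW W').out 2 1).1 hb⟩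
  · rintro ⟨Z, hZ, h⟩
    exact ⟨Z, hZ, (h W fun _ => rfl).2⟩

theorem lefschetzB_tfae_two (hD : P.X.IsCyc 1 P.D) (hL : HardLefschetz W P.X P.D)
    (hn : 3 ≤ P.X.dim) (h : EnoughJumps W P 𝒴) :
    List.TFAE [LefschetzB W P.X P.D, OneCycleForTheories W P,
      CyclesAct W P 𝒴 (fun _ => False), CyclesAct W P 𝒴 𝒴] := by
  have h1 := lefschetzB_tfae_one hD hL hn h
  have h2 := oneCycle_iff hD hL (by omega)
  tfae_have 1 ↔ 2 := h2
  tfae_have 1 ↔ 3 := h1.out 0 1
  tfae_have 1 ↔ 4 := h1.out 0 2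
  tfae_finish

end Pool.Agent.H846.Bdeg
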