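import Pool.Agent.H846.Deg2.Defs

/-!
# Transcendental classes reached by curves at places: definitions
-/

open CategoryTheory AlgebraicGeometry

universe u v

namespace Pool.Agent.H846.Bdeg

open Pool.Agent.H914 Pool.Agent.H914.VarClass Pool.Agent.H914.VarClass.Obj
  Pool.Agent.H281R3.HT Pool.Agent.H846.Det Pool.Agent.H846.Plc Pool.Agent.H846.Hdt
  Pool.Agent.H846.Deg2

/-- For each subspace `U` of `T`, different from `T`, which is stable under the maps in `G`, some
element of `J` is not in `N + U`, where `N` is the span of `D`. If `T` is irreducible under `G`, this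
only has to be checked for `U = 0`: some element of `J` is not in `N`. -/
def EnoughOutside (K : Type*) {A : Type*} [Field K] [Ring A] [Algebra K A]
    (T J : A → Prop) (D : Set A) (G : (A → A) → Prop) : Prop :=
  ∀ U : Submodule K A, (∀ y ∈ U, T y) → (∀ g, G g → ∀ y ∈ U, g y ∈ U) →
    (∀ y, T y → y ∈ U) ∨ ∃ x, J x ∧ x ∉ Submodule.span K D ⊔ U

/-- Each nonzero subspace `U` of `T` which is stable under the maps in `G` contains an element with
the property `N`. If `T` is irreducible under `G`, this means that `T` is zero or contains such an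
element. -/
def SomeInEach (K : Type*) {A : Type*} [Field K] [Ring A] [Algebra K A]
    (T N : A → Prop) (G : (A → A) → Prop) : Prop :=
  ∀ U : Submodule K A, (∀ y ∈ U, T y) → (∀ g, G g → ∀ y ∈ U, g y ∈ U) →
    (∀ y ∈ U, y = 0) ∨ ∃ y ∈ U, N y

/-- The element `y` of the algebra `A` is orthogonal to all `cl w`, where `w` has the property `p`, for
the form `tr(x y)`. -/
def OrthogonalTo {K A C : Type*} [Field K] [Ring A] [Algebra K A] (tr : A →ₗ[K] K) (p : C → Prop)
    (cl : C → A) (y : A) : Prop :=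
  ∀ w, p w → tr (y * cl w) = 0

variable {k : Type u} [Field k] {𝒱 : VarClass k} {ops : CycleOps 𝒱}

/-- The class `y` is in the transcendental part of `H^(2n - 2)(X)`: it is orthogonal to all
divisors. -/
def IsTranscendental (W : WeilCohomology.{u, v} ops) (P : Polarized 𝒱) (y : W.H P.X) : Prop :=
  InDegree W P.X (2 * P.X.dim - 2) y ∧ OrthogonalTo (W.tr P.X) (P.X.IsCyc 1) (classOf W P.X) y

/-- The automorphism `g` of the ring `H(X)` (semilinear, preserving the degrees, the trace and the
classes of divisors) extends to `H(Y)` such that it commutes with the cycles of codimension two on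
`X × Y`, for `Y = X` and for `Y` in `𝒴`: for instance an element of a small open subgroup of the
geometric monodromy group. -/
structure IsCommonSymmetry (W : WeilCohomology.{u, v} ops) (P : Polarized 𝒱)
    (𝒴 : Polarized 𝒱 → Prop) (g : CohIso W W P.X P.X) : Prop where
  comp : ∃ σ, IsComparison W W P P σ g
  fix : ∀ w, P.X.IsCyc 1 w → isoMap g (classOf W P.X w) = classOf W P.X w
  ext : ∀ Q, Q = P ∨ 𝒴 Q → ∃ h : CohIso W W Q.X Q.X,
    ∀ z, (P.X.prod Q.X).IsCyc 2 z → SpecializesTo g h z z

/-- The action of the common symmetries on `H(X)`. -/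
def IsSymmetryMap (W : WeilCohomology.{u, v} ops) (P : Polarized 𝒱) (𝒴 : Polarized 𝒱 → Prop)
    (φ : W.H P.X → W.H P.X) : Prop :=
  ∃ g, IsCommonSymmetry W P 𝒴 g ∧ isoMap g = φ

/-- The classes `D ^ (n - 2) w`, `w` a divisor. -/
def divisorCurves (W : WeilCohomology.{u, v} ops) (P : Polarized 𝒱) : Set (W.H P.X) :=
  {a | ∃ w, P.X.IsCyc 1 w ∧ powMul W P.X P.D (P.X.dim - 2) (classOf W P.X w) = a}

/-- The class `x` is a combination of the classes `D ^ (n - 2) w`, `w` a divisor. -/
def InDivisorSpan (W : WeilCohomology.{u, v} ops) (P : Polarized 𝒱) (x : W.H P.X) : Prop :=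
  x ∈ Submodule.span W.K (divisorCurves W P)

variable {k₀ : Type u} [Field k₀] {𝒱₀ : VarClass k₀} {ops₀ : CycleOps 𝒱₀}

/-- At the place `(X₀, Y₀)` the class `x` of `X` corresponds to the class of a cycle `c` of dimension
one on `X₀`; the cycles of codimension two on `X × Y` correspond to such cycles on `X₀ × Y₀`; and the
Hodge index theorem holds for `Y₀`. -/
def IsCurveAt {W : WeilCohomology.{u, v} ops} {W₀ : WeilCohomology.{u, v} ops₀}
    {P Q : Polarized 𝒱} {P₀ Q₀ : Polarized 𝒱₀} (S : Place W W₀ P Q P₀ Q₀) (x : W.H P.X) : Prop :=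
  HomHodgeUpTo W₀ Q₀ 1 ∧
  (∀ z, (P.X.prod Q.X).IsCyc 2 z → ∃ z₀, (P₀.X.prod Q₀.X).IsCyc 2 z₀ ∧ ActsAs S z z₀) ∧
  ∃ c, P₀.X.IsCyc (P₀.X.dim - 1) c ∧ isoMap S.s x = classOf W₀ P₀.X c

/-- The class `x` becomes the class of a curve at some place of `(X, Y)` (for instance a
specialisation). -/
def BecomesCurve (W : WeilCohomology.{u, v} ops) (P Q : Polarized 𝒱) (x : W.H P.X) : Prop :=
  ∃ (k₀ : Type u) (_ : Field k₀) (𝒱₀ : VarClass k₀) (ops₀ : CycleOps 𝒱₀)
    (W₀ : WeilCohomology.{u, v} ops₀) (P₀ Q₀ : Polarized 𝒱₀) (S : Place W W₀ P Q P₀ Q₀),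
    IsCurveAt S x

/-- For each subspace `U` of the transcendental part `T` of `H^(2n - 2)(X)`, different from `T`, which
is stable under the common symmetries, at some place of `(X, Y)` there is a curve on `X₀` whose class
is not in `U` plus the span of the `D ^ (n - 2) w`, `w` a divisor. -/
def HasJumps (W : WeilCohomology.{u, v} ops) (P Q : Polarized 𝒱) (𝒴 : Polarized 𝒱 → Prop) : Prop :=
  EnoughOutside W.K (IsTranscendental W P) (BecomesCurve W P Q) (divisorCurves W P)
    (IsSymmetryMap W P 𝒴)

/-- There are `Y`, either `X` or in `𝒵`, and a cycle `z` of codimension two on `X × Y` which does not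
kill the class `y`. -/
def IsNotKilled (W : WeilCohomology.{u, v} ops) (P : Polarized 𝒱)
    (𝒵 : Polarized 𝒱 → Prop) (y : W.H P.X) : Prop :=
  ∃ Q, (Q = P ∨ 𝒵 Q) ∧ ∃ z : (P.X.prod Q.X).Cycles, (P.X.prod Q.X).IsCyc 2 z ∧ corrMap W z y ≠ 0

/-- For each nonzero subspace `U` of the transcendental part of `H^(2n - 2)(X)` which is stable under
the common symmetries there are `Y`, either `X` or in `𝒵`, and a cycle `z` of codimension two on
`X × Y` which does not act as zero on `U`. -/
def CyclesAct (W : WeilCohomology.{u, v} ops) (P : Polarized 𝒱)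
    (𝒴 𝒵 : Polarized 𝒱 → Prop) : Prop :=
  SomeInEach W.K (IsTranscendental W P) (IsNotKilled W P 𝒵) (IsSymmetryMap W P 𝒴)

/-- Some cycle of codimension `i` on `X × X` induces the inverse of
`D ^ (n - i) : H^i(X) → H^(2n - i)(X)`. -/
def InvertsIn (W : WeilCohomology.{u, v} ops) (P : Polarized 𝒱) (i : ℕ) : Prop :=
  ∃ z, (P.X.prod P.X).IsCyc i z ∧ ∀ x, InDegree W P.X i x →
    corrMap W z (powMul W P.X P.D (P.X.dim - i) x) = x

/-- The variety `Y` has dimension at least two and satisfies the hard Lefschetz theorem, the Hodge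
index theorem and the Lefschetz standard conjecture in degree `0` (known theorems). -/
structure IsGood (W : WeilCohomology.{u, v} ops) (Q : Polarized 𝒱) : Prop where
  isCyc : Q.X.IsCyc 1 Q.D
  two_le : 2 ≤ Q.X.dim
  hard : HardLefschetz W Q.X Q.D
  index : HomHodgeUpTo W Q 1
  zero : InvertsIn W Q 0

/-- The variety `X` and the set `𝒴` satisfy: for `Y = X` and for `Y` in `𝒴` there are enough places of
`(X, Y)` with more curves, and `Y` is good; and a cycle inverts
`D ^ (n - i) : H^i(X) → H^(2n - i)(X)` for all `i < n`, `i ≠ 2` (a known theorem if `n ≤ 3`). -/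
structure EnoughJumps (W : WeilCohomology.{u, v} ops) (P : Polarized 𝒱)
    (𝒴 : Polarized 𝒱 → Prop) : Prop where
  jumps : ∀ Q, Q = P ∨ 𝒴 Q → HasJumps W P Q 𝒴
  good : ∀ Q, Q = P ∨ 𝒴 Q → IsGood W Q
  inverse : ∀ i < P.X.dim, i ≠ 2 → InvertsIn W P i

/-- One cycle of codimension `n - 1` on `X × X` with rational coefficients induces the operator `Λ`
for all Weil cohomology theories with the same Betti numbers of `X`. -/
def OneCycleForTheories (W : WeilCohomology.{u, v} ops) (P : Polarized 𝒱) : Prop :=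
  ∃ Z, (P.X.prod P.X).IsCyc (P.X.dim - 1) Z ∧ ∀ W' : WeilCohomology.{u, v} ops,
    (∀ i, W'.betti P.X i = W.betti P.X i) → HardLefschetz W' P.X P.D ∧ InducesLambda W' P.X P.D Z

end Pool.Agent.H846.Bdeg
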