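import Pool.Agent.H846.Deg2.Ops

/-!
# Homogeneous algebraic operators
-/

open CategoryTheory AlgebraicGeometry Finset

universe u v

namespace Pool.Agent.H846.Bdeg

open Pool.Agent.H914 Pool.Agent.H914.VarClass Pool.Agent.H914.VarClass.Obj
  Pool.Agent.H914.WeilCohomology Pool.Agent.H281R3.HT Pool.Agent.W552 Pool.Agent.W539.Ker
  Pool.Agent.R911.Iso Pool.Agent.H447 Pool.Agent.H846.Det Pool.Agent.H846.Plc
  Pool.Agent.H846.Hdt

variable {k : Type u} [Field k] {𝒱 : VarClass k} {ops : CycleOps 𝒱}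
  {W : WeilCohomology.{u, v} ops} {X Y Z : 𝒱.Obj}

/-- The operator `u` is algebraic and raises the weight (the degree minus the dimension) by `m`. -/
def HO (W : WeilCohomology.{u, v} ops) (X Y : 𝒱.Obj) (m : ℤ) (u : W.H X →ₗ[W.K] W.H Y) : Prop :=
  AOp W X Y u ∧ Hm W m u

namespace HO

variable {m m' : ℤ} {u u' : W.H X →ₗ[W.K] W.H Y}

lemma cast (h : HO W X Y m u) (e : m = m') : HO W X Y m' u := e ▸ h

lemma zero : HO W X Y m 0 := ⟨AOp.zero, Hm.zero⟩

lemma add (h : HO W X Y m u) (h' : HO W X Y m u') : HO W X Y m (u + u') :=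
  ⟨h.1.add h'.1, h.2.add h'.2⟩

lemma smul (q : ℚ) (h : HO W X Y m u) : HO W X Y m ((q : W.K) • u) :=
  ⟨h.1.smul q, h.2.smul _⟩

lemma sub (h : HO W X Y m u) (h' : HO W X Y m u') : HO W X Y m (u - u') := by
  convert h.add (h'.smul (-1)) using 1
  push_cast
  module

lemma comp {v : W.H Y →ₗ[W.K] W.H Z} (h' : HO W Y Z m' v) (h : HO W X Y m u) :
    HO W X Z (m' + m) (v ∘ₗ u) := ⟨h'.1.comp h.1, h'.2.comp h.2⟩

lemma one : HO W X X 0 (1 : Module.End W.K (W.H X)) := ⟨AOp.one, Hm.one⟩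

lemma mul {a b : Module.End W.K (W.H X)} (h' : HO W X X m' a) (h : HO W X X m b) :
    HO W X X (m' + m) (a * b) := h'.comp h

lemma mul0 {a b : Module.End W.K (W.H X)} (h' : HO W X X 0 a) (h : HO W X X 0 b) :
    HO W X X 0 (a * b) := (h'.comp h).cast (add_zero 0)

/-- Polynomials in an operator of weight zero. -/
lemma ev {a : Module.End W.K (W.H X)} (h : HO W X X 0 a) (p : Polynomial ℚ) :
    HO W X X 0 (Det.ev a p) := ⟨aop_ev h.1 p, hm_ev h.2 p⟩

/-- The degrees of the images. -/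
lemma mem (h : HO W X Y m u) {i j : ℕ} {x : W.H X} (hx : x ∈ W.gr X i)
    (hj : (j : ℤ) = i - X.dim + m + Y.dim) : u x ∈ W.gr Y j := Deg2.Hm.mem h.2 hx hj

/-- The images in negative degrees vanish. -/
lemma eq_zero (h : HO W X Y m u) {i : ℕ} {x : W.H X} (hx : x ∈ W.gr X i)
    (hj : (i : ℤ) - X.dim + m + Y.dim < 0) : u x = 0 := by
  have h1 := h.2.apply x
  rw [Fr.wt_gr hx, map_smul, ← add_smul] at h1
  refine (mem_gr_of_wt (W.isInternal Y) (n := Y.dim) (fun i hi => W.gr_eq_bot Y i (by omega))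
    h1).2 fun j h0 => ?_
  have h2 : (((i : ℤ) - X.dim + m + Y.dim : ℤ) : W.K) = ((j : ℤ) : W.K) := by
    push_cast
    linear_combination h0
  have h3 : (i : ℤ) - X.dim + m + Y.dim = j := by exact_mod_cast h2
  omega

lemma of_cyc {p : ℕ} {z : (X.prod Y).Cycles} (hz : (X.prod Y).IsCyc p z) :
    HO W X Y (2 * p - (X.prod Y).dim) (W.corr (W.cl _ z)) :=
  ⟨⟨_, AS.of ⟨z, hz, rfl⟩, rfl⟩, hm_cyc hz⟩

lemma cyc (h : HO W X Y m u) {p : ℕ} (hm : m = 2 * p - (X.prod Y).dim) :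
    ∃ z, (X.prod Y).IsCyc p z ∧ W.corr (W.cl _ z) = u := by
  subst hm
  obtain ⟨c, ⟨z, hz, rfl⟩, hc⟩ := class_of_aop (p := p) h.1 h.2
  exact ⟨z, hz, hc⟩

end HO

/-- The weight operator is skew for the trace form. -/
lemma tr_wt (a b : W.H X) : W.tr X (wt (W.isInternal X) X.dim a * b) =
    -W.tr X (a * wt (W.isInternal X) X.dim b) := by
  refine gr_induction (W.isInternal X) (p := fun a => W.tr X (wt (W.isInternal X) X.dim a * b) =
    -W.tr X (a * wt (W.isInternal X) X.dim b)) ?_ ?_ a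
  swap
  · intro a a' ha ha'
    rw [map_add, add_mul, add_mul, map_add, map_add, ha, ha', neg_add]
  intro i a ha
  refine gr_induction (W.isInternal X) (p := fun b => W.tr X (wt (W.isInternal X) X.dim a * b) =
    -W.tr X (a * wt (W.isInternal X) X.dim b)) ?_ ?_ b
  swap
  · intro b b' hb hb'
    rw [mul_add, map_add, map_add, hb, hb', mul_add, map_add, neg_add]
  intro j b hb
  rw [Fr.wt_gr ha, Fr.wt_gr hb, smul_mul_assoc, mul_smul_comm, map_smul, map_smul]
  by_cases hij : i + j = 2 * X.dim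
  · rw [smul_eq_mul, smul_eq_mul, ← neg_mul]
    congr 1
    have : (i : W.K) + j = 2 * X.dim := by exact_mod_cast hij
    linear_combination this
  · rw [W.tr_eq_zero (W.mul_mem ha hb) hij, smul_zero, smul_zero, neg_zero]

/-- The adjoint for the trace forms. -/
lemma HO.adj {m : ℤ} {u : W.H X →ₗ[W.K] W.H Y} (h : HO W X Y m u) :
    ∃ u', HO W Y X m u' ∧ ∀ a b, W.tr Y (u a * b) = W.tr X (a * u' b) := by
  obtain ⟨u', hu', hadj⟩ := h.1.adj
  refine ⟨u', ⟨hu', ?_⟩, hadj⟩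
  apply LinearMap.ext
  intro b
  rw [← sub_eq_zero]
  apply nondeg_right
  intro a
  rw [mul_sub, map_sub, LinearMap.comp_apply, LinearMap.add_apply, LinearMap.comp_apply,
    LinearMap.smul_apply, mul_add, map_add, mul_smul_comm, map_smul, ← hadj, ← hadj]
  have h1 := tr_wt (W := W) (X := X) a (u' b)
  have h2 := tr_wt (W := W) (X := Y) (u a) b
  rw [h.2.apply, add_mul, smul_mul_assoc, map_add, map_smul, hadj (wt (W.isInternal X) X.dim a),
    h1] at h2
  linear_combination -h2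

section Lef

variable {D : X.Cycles}

/-- Multiplication by a power of the class of the divisor. -/
noncomputable def Lc (W : WeilCohomology.{u, v} ops) (X : 𝒱.Obj) (D : X.Cycles) (c : ℕ) :
    Module.End W.K (W.H X) := LinearMap.mulLeft W.K (W.cl X D) ^ c

lemma Lc_apply (c : ℕ) (x : W.H X) : Lc W X D c x = W.cl X D ^ c * x := by
  rw [Lc, LinearMap.pow_mulLeft, LinearMap.mulLeft_apply]

lemma Lc_one : Lc W X D 1 = LinearMap.mulLeft W.K (W.cl X D) := pow_one _

lemma Lc_add (a b : ℕ) : Lc W X D (a + b) = Lc W X D a * Lc W X D b := pow_add _ _ _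

lemma Lc_mem (hD : X.IsCyc 1 D) {i : ℕ} {x : W.H X} (hx : x ∈ W.gr X i) (c : ℕ) :
    Lc W X D c x ∈ W.gr X (i + 2 * c) := pow_L_mem (mulLeft_isHom (W := W) hD) hx c

lemma Lc_ho (hD : X.IsCyc 1 D) (c : ℕ) : HO W X X (2 * c) (Lc W X D c) := by
  constructor
  · have h := HKn.mul_aop (W := W) (divPow_mem (ops := ops) hD c
      (X.V.fundCycle_mem : X.IsCyc 0 X.V.fundCycle))
    rw [cl_divPow, W.cl_fund, LinearMap.pow_mulLeft, LinearMap.mulLeft_apply, mul_one] at h
    rwa [Lc, LinearMap.pow_mulLeft]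
  · apply gr_ext (W.isInternal X)
    intro i a ha
    rw [LinearMap.comp_apply, LinearMap.add_apply, LinearMap.comp_apply, LinearMap.smul_apply,
      Fr.wt_gr ha, map_smul, Fr.wt_gr (Lc_mem hD ha c), ← add_smul]
    congr 1
    push_cast
    ring

/-- The trace form and the powers of the class of the divisor. -/
lemma tr_Lc (hD : X.IsCyc 1 D) (c : ℕ) (x y : W.H X) :
    W.tr X (Lc W X D c x * y) = W.tr X (x * Lc W X D c y) := by
  rw [Lc_apply, Lc_apply, Deg2.pow_comm hD, mul_assoc]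

end Lef

end Pool.Agent.H846.Bdeg
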