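import Pool.Agent.H846.Bdeg.Low

/-!
# The star operator in a low degree is algebraic
-/

open CategoryTheory AlgebraicGeometry Finset

universe u v

namespace Pool.Agent.H846.Bdeg

open Pool.Agent.H914 Pool.Agent.H914.VarClass Pool.Agent.H914.VarClass.Obj
  Pool.Agent.H914.WeilCohomology Pool.Agent.H281R3.HT Pool.Agent.W552 Pool.Agent.W539.Ker
  Pool.Agent.R911.Iso Pool.Agent.H447 Pool.Agent.H846.Det Pool.Agent.H846.Plc
  Pool.Agent.H846.Hdt

section Alg

variable {K : Type*} [Field K] [CharZero K] {V : Type*} [AddCommGroup V] [Module K V]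

/-- Polynomials in an operator on eigenvectors. -/
lemma ev_eigen {a : Module.End K V} {x : V} {μ : ℚ} (h : a x = (μ : K) • x)
    (p : Polynomial ℚ) : Det.ev a p x = ((p.eval μ : ℚ) : K) • x := by
  induction p using Polynomial.induction_on' with
  | add p q hp hq =>
    rw [map_add, LinearMap.add_apply, hp, hq, Polynomial.eval_add, Rat.cast_add, add_smul]
  | monomial n c =>
    have h1 : ∀ n : ℕ, (a ^ n) x = ((μ ^ n : ℚ) : K) • x := by
      intro n
      induction n with
      | zero => simp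
      | succ n ih =>
        rw [pow_succ', Module.End.mul_apply, ih, map_smul, h, smul_smul, ← Rat.cast_mul,
          pow_succ]
    rw [← Polynomial.smul_X_eq_monomial, ev_smul, map_pow, Det.ev_X, LinearMap.smul_apply, h1,
      smul_smul, ← Rat.cast_mul, Polynomial.eval_smul, Polynomial.eval_pow, Polynomial.eval_X,
      smul_eq_mul]

end Alg

variable {k : Type u} [Field k] {𝒱 : VarClass k} {ops : CycleOps 𝒱}
  {W : WeilCohomology.{u, v} ops} {X : 𝒱.Obj} {D : X.Cycles} {f : Module.End W.K (W.H X)}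

/-- The class `a` is primitive of degree `j`. -/
def Prm (W : WeilCohomology.{u, v} ops) (X : 𝒱.Obj) (D : X.Cycles) (j : ℕ) (a : W.H X) : Prop :=
  a ∈ W.gr X j ∧ Lc W X D (X.dim - j + 1) a = 0

section Low

variable (hD : X.IsCyc 1 D)
  (t : LefStr (W.isInternal X) X.dim (LinearMap.mulLeft W.K (W.cl X D)) f)

include t

/-- Induction on the elements of a low degree. -/
lemma prm_induction {i : ℕ} (hi : i ≤ X.dim) {p : W.H X → Prop}
    (hadd : ∀ a b, p a → p b → p (a + b))
    (hprim : ∀ j, 2 * j ≤ i → ∀ a, Prm W X D (i - 2 * j) a → p (Lc W X D j a)) {x : W.H X}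
    (hx : x ∈ W.gr X i) : p x := by
  have key := lef_induction (n := X.dim) t.hL t.hbd t.hHL (p := fun l x => l = i → p x)
    (fun l a b ha hb h => hadd a b (ha h) (hb h))
    (by
      rintro l hl a ha hp j hj
      refine hprim j (by omega) a ?_
      rw [show i - 2 * j = l by omega]
      exact ⟨ha, hp⟩)
  exact key i hi x hx 0 rfl

/-- The lowering operator on the powers of the raising operator. -/
lemma f_pow_prm {i j : ℕ} (hi : i ≤ X.dim) (hj : 2 * j ≤ i) {a : W.H X}
    (ha : Prm W X D (i - 2 * j) a) :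
    Lc W X D 1 (f (Lc W X D j a)) =
      (((j * (X.dim - i + j + 1) : ℚ)) : W.K) • Lc W X D j a := by
  obtain ⟨h1, h2⟩ := t.low (show i - 2 * j ≤ X.dim by omega) ha.1 ha.2
  rcases Nat.eq_zero_or_pos j with rfl | h0
  · have h3 : Lc W X D 0 a = a := by rw [Lc, pow_zero, Module.End.one_apply]
    rw [h3, h1, map_zero]
    simp
  · obtain ⟨l, rfl⟩ : ∃ l, j = l + 1 := ⟨j - 1, by omega⟩
    have h3 := Sl2.f_e_pow t.sl2 h1 h2 l
    have h4 : f (Lc W X D (l + 1) a) = ((l + 1) * (((X.dim - (i - 2 * (l + 1)) : ℕ) : W.K) - l)) •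
        Lc W X D l a := h3
    rw [h4, map_smul, ← Module.End.mul_apply, ← Lc_add, add_comm 1 l]
    congr 1
    rw [Nat.cast_sub (by omega), Nat.cast_sub hj]
    push_cast
    ring

omit t in
lemma mu_inj {n i : ℕ} (hi : i ≤ n) :
    Set.InjOn (fun j : ℕ => (j * ((n : ℚ) - i + j + 1) : ℚ)) (range (i + 1) : Set ℕ) := by
  intro a _ b _ h
  have h1 : ((a : ℚ) - b) * ((n : ℚ) - i + a + b + 1) = 0 := by
    have h2 : (a * ((n : ℚ) - i + a + 1) : ℚ) = b * ((n : ℚ) - i + b + 1) := h
    linear_combination h2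
  have h3 : (0 : ℚ) < (n : ℚ) - i + a + b + 1 := by
    have h4 : (i : ℚ) ≤ n := by exact_mod_cast hi
    have h5 : (0 : ℚ) ≤ a := Nat.cast_nonneg a
    have h6 : (0 : ℚ) ≤ b := Nat.cast_nonneg b
    linarith
  rcases mul_eq_zero.1 h1 with h2 | h2
  · have : (a : ℚ) = b := by linarith
    exact_mod_cast this
  · exact absurd h2 h3.ne'

include hD

/-- Operators with given eigenvalues on the components of the primitive decomposition. -/
theorem exists_diag {i : ℕ} (hi : i ≤ X.dim) (hinv : ∀ j, j + 2 ≤ i → InvIn W X D j)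
    (γ : ℕ → ℚ) : ∃ η : Module.End W.K (W.H X), HO W X X 0 η ∧
      ∀ j, 2 * j ≤ i → ∀ a, Prm W X D (i - 2 * j) a →
        η (Lc W X D j a) = (γ j : W.K) • Lc W X D j a := by
  obtain ⟨g, hg, hgf⟩ := exists_f hD t i hi hinv
  set μ : ℕ → ℚ := fun j : ℕ => (j * ((X.dim : ℚ) - i + j + 1) : ℚ) with hμ
  set p := Lagrange.interpolate (range (i + 1)) μ γ with hp
  refine ⟨Det.ev (Lc W X D 1 * g) p, (((Lc_ho hD 1).mul hg).cast (by norm_num)).ev p, ?_⟩
  intro j hj a ha
  have hm : Lc W X D j a ∈ W.gr X i := by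
    have := Lc_mem hD ha.1 j
    rwa [show i - 2 * j + 2 * j = i by omega] at this
  have h1 : (Lc W X D 1 * g) (Lc W X D j a) = ((μ j : ℚ) : W.K) • Lc W X D j a := by
    rw [Module.End.mul_apply, hgf _ hm, f_pow_prm t hi hj ha]
  rw [ev_eigen h1, hp, Lagrange.eval_interpolate_at_node γ (mu_inj hi)
    (Finset.mem_range.2 (by omega))]

/-- The eigenvalues of the star operator. -/
noncomputable def gam (n i j : ℕ) : ℚ :=
  sg i * ((-1) ^ j * (j.factorial * ((n - i + j).factorial : ℚ)⁻¹))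

omit t hD in
lemma gam_ne (n i j : ℕ) : gam n i j ≠ 0 := by
  have h1 : (sg i : ℚ) ≠ 0 := by
    intro h
    have h2 := sg_sq i
    have h3 : sg i = 0 := by exact_mod_cast h
    rw [h3] at h2
    simp at h2
  have h2 : (j.factorial : ℚ) ≠ 0 := by exact_mod_cast Nat.factorial_ne_zero _
  have h3 : ((n - i + j).factorial : ℚ)⁻¹ ≠ 0 :=
    inv_ne_zero (by exact_mod_cast Nat.factorial_ne_zero _)
  exact mul_ne_zero h1 (mul_ne_zero (pow_ne_zero _ (by norm_num)) (mul_ne_zero h2 h3))

/-- The star operator on the components of the primitive decomposition. -/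
lemma st_prm {i j : ℕ} (hi : i ≤ X.dim) (hj : 2 * j ≤ i) {a : W.H X}
    (ha : Prm W X D (i - 2 * j) a) :
    st W X D f (Lc W X D j a) = (gam X.dim i j : W.K) • Lc W X D (X.dim - i) (Lc W X D j a) := by
  have hm : Lc W X D j a ∈ W.gr X i := by
    have := Lc_mem hD ha.1 j
    rwa [show i - 2 * j + 2 * j = i by omega] at this
  have h1 := t.w_L_pow (show i - 2 * j ≤ X.dim by omega) ha.1 ha.2 (j := j) (by omega)
  rw [st_apply hm]
  change (sg i : W.K) • wey (LinearMap.mulLeft W.K (W.cl X D)) f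
    ((LinearMap.mulLeft W.K (W.cl X D) ^ j) a) = _
  rw [h1, smul_smul, ← Module.End.mul_apply (Lc W X D (X.dim - i)), ← Lc_add,
    show X.dim - (i - 2 * j) - j = X.dim - i + j by omega, gam]
  change _ • Lc W X D (X.dim - i + j) a = _
  congr 1
  push_cast
  ring

/-- **The star operator in a low degree is algebraic.** -/
theorem exists_star {i : ℕ} (hi : i ≤ X.dim) (hinv : ∀ j, j + 2 ≤ i → InvIn W X D j) :
    ∃ η η' : Module.End W.K (W.H X), HO W X X 0 η ∧ HO W X X 0 η' ∧
      (∀ x ∈ W.gr X i, η' (η x) = x) ∧ (∀ x ∈ W.gr X i, η (η' x) = x) ∧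
      ∀ x ∈ W.gr X i, st W X D f x = Lc W X D (X.dim - i) (η x) := by
  obtain ⟨η, hη, h1⟩ := exists_diag hD t hi hinv (gam X.dim i)
  obtain ⟨η', hη', h2⟩ := exists_diag hD t hi hinv (fun j => (gam X.dim i j)⁻¹)
  refine ⟨η, η', hη, hη', fun x hx => ?_, fun x hx => ?_, fun x hx => ?_⟩
  · refine prm_induction t hi (p := fun x => η' (η x) = x) ?_ ?_ hx
    · intro a b ha hb; rw [map_add, map_add, ha, hb]
    · intro j hj a ha
      rw [h1 j hj a ha, map_smul, h2 j hj a ha, smul_smul, ← Rat.cast_mul,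
        mul_inv_cancel₀ (gam_ne _ _ _), Rat.cast_one, one_smul]
  · refine prm_induction t hi (p := fun x => η (η' x) = x) ?_ ?_ hx
    · intro a b ha hb; rw [map_add, map_add, ha, hb]
    · intro j hj a ha
      rw [h2 j hj a ha, map_smul, h1 j hj a ha, smul_smul, ← Rat.cast_mul,
        inv_mul_cancel₀ (gam_ne _ _ _), Rat.cast_one, one_smul]
  · refine prm_induction t hi (p := fun x => st W X D f x = Lc W X D (X.dim - i) (η x)) ?_ ?_ hx
    · intro a b ha hb; rw [map_add, map_add, map_add, ha, hb]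
    · intro j hj a ha
      rw [h1 j hj a ha, map_smul, st_prm hD t hi hj ha]

end Low

end Pool.Agent.H846.Bdeg
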